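import Pool.Agent.Helper65.DC.Main

set_option autoImplicit false

namespace Pool.Agent.Helper65.DC

open Finset

variable {V : Type*} [Fintype V] [DecidableEq V]

open scoped Classical in
/-- the edge set of a graph as a finset -/
noncomputable def ef (G : SimpleGraph V) : Finset (Sym2 V) := univ.filter fun e => e ∈ G.edgeSet

omit [DecidableEq V] in
theorem mem_ef (G : SimpleGraph V) (e : Sym2 V) : e ∈ ef G ↔ e ∈ G.edgeSet := by
  classical
  unfold ef; rw [Finset.mem_filter]; simp

omit [DecidableEq V] in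
theorem mk_mem_ef (G : SimpleGraph V) (v w : V) : s(v, w) ∈ ef G ↔ G.Adj v w := by
  rw [mem_ef, SimpleGraph.mem_edgeSet]

theorem mem_nb_ef (G : SimpleGraph V) (v w : V) : w ∈ nb (ef G) v ↔ G.Adj v w := by
  rw [mem_nb, mk_mem_ef]

theorem nb_ncard (G : SimpleGraph V) (v : V) : (G.neighborSet v).ncard = (nb (ef G) v).card := by
  rw [← Set.ncard_coe_finset]
  congr 1
  ext w
  rw [Finset.mem_coe, mem_nb_ef, SimpleGraph.mem_neighborSet]

omit [DecidableEq V] in
theorem ef_inj {G H : SimpleGraph V} (h : ef G = ef H) : G = H := by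
  ext v w
  rw [← mk_mem_ef, ← mk_mem_ef, h]

omit [DecidableEq V] in
theorem ef_le {G H : SimpleGraph V} : G ≤ H ↔ ef G ⊆ ef H := by
  constructor
  · intro h e he
    rw [mem_ef] at he ⊢
    exact SimpleGraph.edgeSet_mono h he
  · intro h v w hvw
    rw [← mk_mem_ef] at hvw ⊢
    exact h hvw

omit [DecidableEq V] in
theorem ef_card (G : SimpleGraph V) : Nat.card G.edgeSet = (ef G).card := by
  rw [← Set.ncard_coe_finset, Nat.card_coe_set_eq]
  congr 1
  ext e
  rw [Finset.mem_coe, mem_ef]

omit [Fintype V] [DecidableEq V] in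
theorem const_of_reachable {T : SimpleGraph V} (x : V → ZMod 2) (hx : ∀ u w, T.Adj u w → x u = x w)
    {a b : V} (h : T.Reachable a b) : x a = x b := by
  obtain ⟨p⟩ := h
  induction p with
  | nil => rfl
  | cons hadj _ ih => exact (hx _ _ hadj).trans ih

/-- a graph all of whose `ZMod 2` potentials are constant is preconnected -/
theorem preconnected_of_const {U : Type*} {T : SimpleGraph U}
    (h : ∀ x : U → ZMod 2, (∀ u w, T.Adj u w → x u = x w) → ∀ u w, x u = x w) : T.Preconnected := by
  classical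
  intro a b
  have h1 := h (fun u => if T.Reachable a u then 1 else 0) (by
    intro u w huw
    have : T.Reachable a u ↔ T.Reachable a w :=
      ⟨fun h => h.trans huw.reachable, fun h => h.trans huw.symm.reachable⟩
    by_cases hu : T.Reachable a u
    · simp only [hu, this.1 hu, if_true]
    · have hw : ¬ T.Reachable a w := fun hw => hu (this.2 hw)
      simp only [hu, hw, if_false])
  have h2 := h1 b a
  have h3 : T.Reachable a a := SimpleGraph.Reachable.refl a
  simp only [h3, if_true] at h2
  by_contra hab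
  simp [hab] at h2

omit [DecidableEq V] in
theorem connected_iff_Sp [Nonempty V] (T : SimpleGraph V) : T.Connected ↔ Sp (ef T) := by
  constructor
  · intro h x hx u w
    exact const_of_reachable x (fun a b hab => hx a b ((mk_mem_ef _ _ _).2 hab)) (h.preconnected u w)
  · intro h
    have : T.Preconnected := preconnected_of_const fun x hx =>
      h x (fun a b hab => hx a b ((mk_mem_ef _ _ _).1 hab))
    exact ⟨this⟩

omit [DecidableEq V] in
theorem isTree_iff' [Nonempty V] (T : SimpleGraph V) :
    T.IsTree ↔ (ef T).card + 1 = Fintype.card V ∧ Sp (ef T) := by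
  rw [SimpleGraph.isTree_iff_connected_and_card, connected_iff_Sp, ef_card, Nat.card_eq_fintype_card]
  tauto

/-- vertices of degree three whose deletion leaves the graph connected -/
def core {V : Type*} (J : SimpleGraph V) : Set V :=
  {v | (J.neighborSet v).ncard = 3 ∧ (J.induce {v}ᶜ).Connected}

/-- every component of the subgraph induced by the core meets at most one edge of `X` -/
def Scattered {V : Type*} (J : SimpleGraph V) (X : Set (Sym2 V)) : Prop :=
  ∀ e ∈ X, ∀ f ∈ X, ∀ a b : core J, a.1 ∈ e → b.1 ∈ f →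
    (J.induce (core J)).Reachable a b → e = f

/-- the condition on the leftover edges -/
def IsGood {V : Type*} (G T : SimpleGraph V) : Prop :=
  (∀ v : V, ((G \ T).neighborSet v).ncard ≤ 2) ∧
    (∀ v w : V, (G \ T).Adj v w → ((G \ T).neighborSet v).ncard = 1 →
      ((G \ T).neighborSet w).ncard = 1)

omit [DecidableEq V] in
theorem gw_reach (J : SimpleGraph V) {a b : V} (h : (GW (ef J) (core J)).Reachable a b)
    (ha : a ∈ core J) (hb : b ∈ core J) : (J.induce (core J)).Reachable ⟨a, ha⟩ ⟨b, hb⟩ := by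
  obtain ⟨p⟩ := h
  induction p with
  | nil => exact SimpleGraph.Reachable.refl _
  | cons hadj _ ih =>
    have h1 := hadj.2.2.1
    refine SimpleGraph.Reachable.trans ?_ (ih h1 hb)
    apply SimpleGraph.Adj.reachable
    rw [SimpleGraph.comap_adj]
    exact (mk_mem_ef _ _ _).1 hadj.2.2.2

omit [DecidableEq V] in
theorem scat_of_scattered (J : SimpleGraph V) (X : Finset (Sym2 V))
    (h : Scattered J (X : Set (Sym2 V))) : Scat (ef J) X (core J) := by
  intro e he f hf a ha b hb haW hbW hr
  exact h e (by exact_mod_cast he) f (by exact_mod_cast hf) ⟨a, haW⟩ ⟨b, hbW⟩ ha hb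
    (gw_reach J hr haW hbW)

theorem amb_of (J : SimpleGraph V) (hd : ∀ v, (J.neighborSet v).ncard = 1 ∨ (J.neighborSet v).ncard = 3)
    (hV : 3 ≤ Fintype.card V) : Amb (ef J) := by
  refine ⟨?_, ?_, hV⟩
  · intro e he hdg
    exact SimpleGraph.not_isDiag_of_mem_edgeSet _ ((mem_ef _ _).1 he) hdg
  · intro v
    rw [← nb_ncard]; exact hd v

theorem core_of_leaf (J : SimpleGraph V) (hA : Amb (ef J)) {T : Finset (Sym2 V)} (hT : T ⊆ ef J)
    (hsp : Sp T) {v : V} (hv : v ∈ Lf (ef J) T) : v ∈ core J := by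
  classical
  obtain ⟨h1, h2⟩ := leaf_facts hA hT hsp hv
  refine ⟨by rw [nb_ncard]; exact h1, ?_⟩
  obtain ⟨c, hc⟩ := Finset.card_eq_one.1 h2
  have hcT : s(v, c) ∈ T := by rw [← mem_nb, hc]; exact Finset.mem_singleton_self c
  have hvc : c ≠ v := fun h => hA.nd _ (hT hcT) (Sym2.mk_isDiag_iff.2 h.symm)
  have : Nonempty ({v}ᶜ : Set V) := ⟨⟨c, hvc⟩⟩
  refine { preconnected := preconnected_of_const ?_, nonempty := inferInstance }
  intro x hx
  -- extension
  let y : V → ZMod 2 := fun u => if h : u ≠ v then x ⟨u, h⟩ else x ⟨c, hvc⟩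
  have hy1 : ∀ u (h : u ≠ v), y u = x ⟨u, h⟩ := fun u h => dif_pos h
  have hy2 : y v = x ⟨c, hvc⟩ := dif_neg (by simp)
  have h3 := hsp y (by
    intro a b hab
    by_cases ha : a = v
    · subst ha
      have := nb_unique T a c h2 hcT b hab
      subst this
      rw [hy2, hy1 b hvc]
    · by_cases hb : b = v
      · subst hb
        rw [Sym2.eq_swap] at hab
        have := nb_unique T b c h2 hcT a hab
        subst this
        rw [hy2, hy1 a hvc]
      · rw [hy1 a ha, hy1 b hb]
        apply hx
        rw [SimpleGraph.comap_adj]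
        exact (mk_mem_ef _ _ _).1 (hT hab))
  intro u w
  have := h3 u.1 w.1
  rwa [hy1 u.1 u.2, hy1 w.1 w.2] at this

/-- goodness in the cubic graph and in the subgraph agree -/
theorem isGood_iff {G J T : SimpleGraph V} (hG : ∀ v, (G.neighborSet v).ncard = 3) (hJ : J ≤ G)
    (hA : Amb (ef J)) (hT : T ≤ J) (hsp : Sp (ef T)) : IsGood G T ↔ Good (ef J) (ef T) := by
  have hTJ : ef T ⊆ ef J := ef_le.1 hT
  have hJG : ef J ⊆ ef G := ef_le.1 hJ
  have hTG : ef T ⊆ ef G := hTJ.trans hJG
  -- neighbour sets of G \ T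
  have hnb : ∀ v, ((G \ T).neighborSet v).ncard = (nb (ef G \ ef T) v).card := by
    intro v
    rw [← Set.ncard_coe_finset]
    congr 1
    ext w
    rw [Finset.mem_coe, mem_nb, Finset.mem_sdiff, mk_mem_ef, mk_mem_ef, SimpleGraph.mem_neighborSet,
      SimpleGraph.sdiff_adj]
  have hadj : ∀ v w, (G \ T).Adj v w ↔ s(v, w) ∈ ef G \ ef T := by
    intro v w
    rw [Finset.mem_sdiff, mk_mem_ef, mk_mem_ef, SimpleGraph.sdiff_adj]
  have hG3 : ∀ v, (nb (ef G) v).card = 3 := fun v => by rw [← nb_ncard]; exact hG v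
  have hpos : ∀ v, 0 < (nb (ef T) v).card := fun v => nb_pos _ hsp (by have := hA.big; omega) v
  -- degree 3 in J : same cotree neighbours
  have hsame : ∀ v, (nb (ef J) v).card = 3 → nb (ef G \ ef T) v = nb (ef J \ ef T) v := by
    intro v hv
    have h1 : nb (ef J) v = nb (ef G) v := by
      refine Finset.eq_of_subset_of_card_le ?_ (by rw [hv, hG3])
      intro w hw
      rw [mem_nb] at hw ⊢
      exact hJG hw
    ext w
    have h2 : s(v, w) ∈ ef J ↔ s(v, w) ∈ ef G := by rw [← mem_nb, ← mem_nb, h1]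
    rw [mem_nb, mem_nb, Finset.mem_sdiff, Finset.mem_sdiff, h2]
  -- degree 1 in J
  have hone : ∀ v, (nb (ef J) v).card = 1 →
      (nb (ef G \ ef T) v).card = 2 ∧ (nb (ef J \ ef T) v).card = 0 := by
    intro v hv
    have h1 := nb_split hTJ v
    have h2 := nb_split hTG v
    have h3 := hpos v
    have h4 := hG3 v
    omega
  constructor
  · rintro ⟨-, hg⟩
    refine ⟨codeg_le hA hTJ hsp, fun v w hvw h1 => ?_⟩
    have hv3 : (nb (ef J) v).card = 3 := by
      rcases hA.deg v with h | h
      · have := (hone v h).2; omega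
      · exact h
    have hw3 : (nb (ef J) w).card = 3 := by
      rcases hA.deg w with h | h
      · have h5 := (hone w h).2
        have h6 : v ∈ nb (ef J \ ef T) w := by rw [mem_nb, Sym2.eq_swap]; exact hvw
        rw [Finset.card_eq_zero] at h5
        rw [h5] at h6
        exact absurd h6 (Finset.notMem_empty _)
      · exact h
    have h2 := hg v w ((hadj v w).2 (by
      rw [Finset.mem_sdiff] at hvw ⊢
      exact ⟨hJG hvw.1, hvw.2⟩)) (by rw [hnb, hsame v hv3]; exact h1)
    rw [hnb, hsame w hw3] at h2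
    exact h2
  · rintro ⟨-, hg⟩
    constructor
    · intro v
      rw [hnb]
      have h2 := nb_split hTG v
      have h3 := hpos v
      have h4 := hG3 v
      omega
    · intro v w hvw h1
      rw [hnb] at h1 ⊢
      have hv3 : (nb (ef J) v).card = 3 := by
        rcases hA.deg v with h | h
        · have := (hone v h).1; omega
        · exact h
      have h5 : s(v, w) ∈ ef J \ ef T := by
        have : w ∈ nb (ef G \ ef T) v := (mem_nb _ _ _).2 ((hadj v w).1 hvw)
        rw [hsame v hv3] at this
        exact (mem_nb _ _ _).1 this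
      have hw3 : (nb (ef J) w).card = 3 := by
        rcases hA.deg w with h | h
        · have h5' := (hone w h).2
          have h6 : v ∈ nb (ef J \ ef T) w := by rw [mem_nb, Sym2.eq_swap]; exact h5
          rw [Finset.card_eq_zero] at h5'
          rw [h5'] at h6
          exact absurd h6 (Finset.notMem_empty _)
        · exact h
      rw [hsame w hw3]
      exact hg v w h5 (by rw [← hsame v hv3]; exact h1)

/-- spanning trees as graphs and as edge sets -/
theorem count_eq [Nonempty V] (J : SimpleGraph V) (X : Finset (Sym2 V)) (P : SimpleGraph V → Prop)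
    (Q : Finset (Sym2 V) → Prop) [DecidablePred Q]
    (hPQ : ∀ T, T ≤ J → Sp (ef T) → (P T ↔ Q (ef T))) :
    {T : SimpleGraph V | T ≤ J ∧ T.IsTree ∧ Disjoint T.edgeSet (X : Set (Sym2 V)) ∧ P T}.ncard
      = ((Trees (ef J \ X)).filter Q).card := by
  classical
  rw [← Set.ncard_coe_finset]
  refine Set.ncard_congr (fun T _ => ef T) ?_ ?_ ?_
  · rintro T ⟨h1, h2, h3, h4⟩
    rw [isTree_iff'] at h2
    rw [Finset.mem_coe, Finset.mem_filter, mem_Trees]
    refine ⟨⟨?_, h2⟩, (hPQ T h1 h2.2).1 h4⟩
    intro e he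
    rw [Finset.mem_sdiff]
    refine ⟨ef_le.1 h1 he, fun hX => ?_⟩
    exact Set.disjoint_left.1 h3 ((mem_ef _ _).1 he) (by exact_mod_cast hX)
  · intro T T' _ _ h
    exact ef_inj h
  · intro S hS
    rw [Finset.mem_coe, Finset.mem_filter, mem_Trees] at hS
    obtain ⟨⟨h1, h2⟩, h3⟩ := hS
    have hSJ : ∀ e ∈ S, e ∈ J.edgeSet := fun e he => (mem_ef _ _).1 (Finset.mem_sdiff.1 (h1 he)).1
    have hef : ef (SimpleGraph.fromEdgeSet (S : Set (Sym2 V))) = S := by
      ext e
      rw [mem_ef, SimpleGraph.edgeSet_fromEdgeSet]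
      constructor
      · rintro ⟨h, -⟩; exact_mod_cast h
      · intro h
        refine ⟨by exact_mod_cast h, fun hd => ?_⟩
        exact SimpleGraph.not_isDiag_of_mem_edgeSet _ (hSJ e h) (by simpa using hd)
    have hle : SimpleGraph.fromEdgeSet (S : Set (Sym2 V)) ≤ J := by
      rw [ef_le, hef]
      exact h1.trans Finset.sdiff_subset
    refine ⟨SimpleGraph.fromEdgeSet (S : Set (Sym2 V)), ⟨hle, ?_, ?_, ?_⟩, hef⟩
    · rw [isTree_iff', hef]; exact h2
    · rw [Set.disjoint_left]
      intro e he hX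
      rw [← mem_ef, hef] at he
      exact (Finset.mem_sdiff.1 (h1 he)).2 (by exact_mod_cast hX)
    · rw [hPQ _ hle (by rw [hef]; exact h2.2), hef]
      exact h3

end Pool.Agent.Helper65.DC
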