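import Pool.Agent.Helper65.DC.PhiCard

set_option autoImplicit false

namespace Pool.Agent.Helper65.DC

open Finset Matrix

variable {V : Type*} [Fintype V] [DecidableEq V]

/-- adjacency of distinct edges of `E` -/
def RE (E : Finset (Sym2 V)) : Sym2 V → Sym2 V → Prop :=
  fun e f => e ≠ f ∧ e ∈ E ∧ f ∈ E ∧ ∃ v, v ∈ e ∧ v ∈ f

open scoped Classical in
/-- reduced incidence matrix -/
noncomputable def incB (E : Finset (Sym2 V)) (r : V) : Matrix {v : V // v ≠ r} (Sym2 V) (ZMod 2) :=
  fun v e => if IncE E r v e then 1 else 0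

/-- the matrix `1 + J` -/
def matK (κ : Type*) [DecidableEq κ] : Matrix κ κ (ZMod 2) := fun v u => (if v = u then 1 else 0) + 1

theorem incB_sum (E : Finset (Sym2 V)) (r : V) (e : Sym2 V) (he : e ∈ E) (hd : ¬ e.IsDiag) :
    ∑ v : {v : V // v ≠ r}, incB E r v e = if r ∈ e then 1 else 0 := by
  classical
  obtain ⟨a, b, rfl⟩ := sym2_ex e
  have hab : a ≠ b := fun h => hd (Sym2.mk_isDiag_iff.2 h)
  have h1 : ∑ v : {v : V // v ≠ r}, incB E r v s(a, b)
      = ∑ v : {v : V // v ≠ r}, (if v.1 ∈ s(a, b) then (1 : ZMod 2) else 0) := by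
    refine Finset.sum_congr rfl fun v _ => ?_
    unfold incB IncE
    by_cases h : v.1 ∈ s(a, b)
    · rw [if_pos ⟨h, he⟩, if_pos h]
    · rw [if_neg (fun h' => h h'.1), if_neg h]
  rw [h1]
  have h2 := vecMul_edge r (fun _ => (1 : ZMod 2)) a b hab
  rw [h2]
  by_cases ha : a = r
  · have hb : b ≠ r := fun h => hab (ha.trans h.symm)
    rw [if_pos (by rw [Sym2.mem_iff]; exact Or.inl ha.symm)]
    unfold ext0
    rw [dif_neg (by simpa using ha), dif_pos hb]; simp
  · by_cases hb : b = r
    · rw [if_pos (by rw [Sym2.mem_iff]; exact Or.inr hb.symm)]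
      unfold ext0
      rw [dif_pos ha, dif_neg (by simpa using hb)]; simp
    · rw [if_neg (by rw [Sym2.mem_iff]; push Not; exact ⟨fun h => ha h.symm, fun h => hb h.symm⟩)]
      unfold ext0
      rw [dif_pos ha, dif_pos hb]
      exact CharTwo.add_self_eq_zero _

theorem incB_prod (E : Finset (Sym2 V)) (r : V) (a b : V) (he : s(a, b) ∈ E) (hab : a ≠ b)
    (f : Sym2 V) (hf : f ∈ E) :
    ∑ v : {v : V // v ≠ r}, incB E r v s(a, b) * incB E r v f
      = (if a ≠ r ∧ a ∈ f then 1 else 0) + (if b ≠ r ∧ b ∈ f then 1 else 0) := by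
  classical
  have h1 : ∑ v : {v : V // v ≠ r}, incB E r v s(a, b) * incB E r v f
      = ∑ v : {v : V // v ≠ r}, (if v.1 ∈ s(a, b) then
          (fun v : {v : V // v ≠ r} => if v.1 ∈ f then (1 : ZMod 2) else 0) v else 0) := by
    refine Finset.sum_congr rfl fun v _ => ?_
    unfold incB IncE
    by_cases h : v.1 ∈ s(a, b)
    · rw [if_pos ⟨h, he⟩, if_pos h, one_mul]
      by_cases h' : v.1 ∈ f
      · rw [if_pos ⟨h', hf⟩]; simp [h']
      · rw [if_neg (fun h'' => h' h''.1)]; simp [h']
    · rw [if_neg (fun h' => h h'.1), if_neg h, zero_mul]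
  rw [h1, vecMul_edge r _ a b hab]
  congr 1
  · unfold ext0
    by_cases ha : a ≠ r
    · rw [dif_pos ha]; simp [ha]
    · rw [dif_neg ha, if_neg (fun h => ha h.1)]
  · unfold ext0
    by_cases ha : b ≠ r
    · rw [dif_pos ha]; simp [ha]
    · rw [dif_neg ha, if_neg (fun h => ha h.1)]

theorem BKB_apply (E : Finset (Sym2 V)) (r : V) (e f : Sym2 V) :
    ((incB E r)ᵀ * matK {v : V // v ≠ r} * incB E r) e f
      = ∑ v, incB E r v e * incB E r v f
        + (∑ v, incB E r v e) * (∑ v, incB E r v f) := by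
  classical
  have h1 : ∀ u, ((incB E r)ᵀ * matK {v : V // v ≠ r}) e u = incB E r u e + ∑ v, incB E r v e := by
    intro u
    show ∑ v, incB E r v e * matK {v : V // v ≠ r} v u = _
    have : ∀ v, incB E r v e * matK {v : V // v ≠ r} v u
        = (if v = u then incB E r v e else 0) + incB E r v e := by
      intro v; unfold matK; split_ifs <;> ring
    rw [Finset.sum_congr rfl fun v _ => this v, Finset.sum_add_distrib]
    congr 1
    rw [Finset.sum_ite_eq' Finset.univ u]; simp
  show ∑ u, ((incB E r)ᵀ * matK {v : V // v ≠ r}) e u * incB E r u f = _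
  rw [Finset.sum_congr rfl fun u _ => by rw [h1 u, add_mul], Finset.sum_add_distrib, ← Finset.mul_sum]

open scoped Classical in
theorem BKB_eq (E : Finset (Sym2 V)) (hE : ∀ e ∈ E, ¬ e.IsDiag) (r : V) (e f : Sym2 V) :
    ((incB E r)ᵀ * matK {v : V // v ≠ r} * incB E r) e f = if RE E e f then 1 else 0 := by
  rw [BKB_apply]
  have hz : ∀ e, e ∉ E → ∀ v, incB E r v e = 0 := by
    intro e he v
    unfold incB IncE
    rw [if_neg (fun h => he h.2)]
  by_cases he : e ∈ E
  swap
  · rw [if_neg (fun h => he h.2.1)]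
    simp [hz e he]
  by_cases hf : f ∈ E
  swap
  · rw [if_neg (fun h => hf h.2.2.1)]
    simp [hz f hf]
  rw [incB_sum E r e he (hE e he), incB_sum E r f hf (hE f hf)]
  obtain ⟨a, b, rfl⟩ := sym2_ex e
  have hab : a ≠ b := fun h => hE _ he (Sym2.mk_isDiag_iff.2 h)
  rw [incB_prod E r a b he hab f hf]
  -- reduce to [a ∈ f] + [b ∈ f]
  have key : (if a ≠ r ∧ a ∈ f then (1 : ZMod 2) else 0) + (if b ≠ r ∧ b ∈ f then 1 else 0)
      + (if r ∈ s(a, b) then 1 else 0) * (if r ∈ f then 1 else 0)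
      = (if a ∈ f then 1 else 0) + (if b ∈ f then 1 else 0) := by
    by_cases ha : a = r
    · have hb : b ≠ r := fun h => hab (ha.trans h.symm)
      subst ha
      simp [hb]
      ring
    · by_cases hb : b = r
      · subst hb
        simp [ha]
      · have h3 : r ∉ s(a, b) := by
          rw [Sym2.mem_iff]; push Not; exact ⟨fun h => ha h.symm, fun h => hb h.symm⟩
        simp [ha, hb, h3]
  rw [key]
  by_cases h1 : a ∈ f
  · by_cases h2 : b ∈ f
    · have h3 : f = s(a, b) := (Sym2.mem_and_mem_iff hab).1 ⟨h1, h2⟩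
      rw [if_pos h1, if_pos h2, if_neg (fun h => h.1 h3.symm)]
      decide
    · rw [if_pos h1, if_neg h2, if_pos, add_zero]
      refine ⟨fun h => h2 (by rw [← h]; exact Sym2.mem_mk_right a b), he, hf, a,
        Sym2.mem_mk_left a b, h1⟩
  · by_cases h2 : b ∈ f
    · rw [if_neg h1, if_pos h2, if_pos, zero_add]
      refine ⟨fun h => h1 (by rw [← h]; exact Sym2.mem_mk_left a b), he, hf, b,
        Sym2.mem_mk_right a b, h2⟩
    · rw [if_neg h1, if_neg h2, if_neg, add_zero]
      rintro ⟨-, -, -, v, hv, hvf⟩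
      rcases Sym2.mem_iff.1 hv with rfl | rfl
      · exact h1 hvf
      · exact h2 hvf

omit [Fintype V] [DecidableEq V] in
theorem RE_symm (E : Finset (Sym2 V)) (e f : Sym2 V) (h : RE E e f) : RE E f e :=
  ⟨h.1.symm, h.2.2.1, h.2.1, h.2.2.2.imp fun _ hv => ⟨hv.2, hv.1⟩⟩

theorem PiR_false {ι : Type*} [Fintype ι] [DecidableEq ι] (T : Finset ι) :
    (PiR (fun _ _ : ι => False) T).card = 1 := by
  classical
  rw [Finset.card_eq_one]
  refine ⟨1, ?_⟩
  ext π
  rw [mem_PiR, Finset.mem_singleton]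
  constructor
  · rintro ⟨-, h⟩
    ext e
    by_contra hne
    exact (h e hne).1
  · rintro rfl
    exact ⟨by simp, fun e he => absurd rfl he⟩

/-- the number of spanning trees modulo 2 as a determinant -/
theorem trees_det (E : Finset (Sym2 V)) (hE : ∀ e ∈ E, ¬ e.IsDiag) (r : V) :
    ((Trees E).card : ZMod 2) = (incB E r * (incB E r)ᵀ).det := by
  classical
  have h := det_omega (IncE E r) (fun _ _ : Sym2 V => False) (fun _ _ h => h) (fun _ h => h)
    (incB E r) (fun _ _ => rfl) 0 (fun _ _ => by simp)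
  rw [add_zero, det_block_one] at h
  rw [h]
  simp only [PiR_false, Nat.cast_one, mul_one]
  rw [Finset.sum_congr rfl fun T _ => phi_card E hE r T, ← Finset.sum_filter, Finset.sum_const,
    nsmul_eq_mul, mul_one]
  congr 2
  ext T; simp

/-- **Key identity.** The number of pairs (spanning tree, matching of adjacent pairs of cotree edges)
has the parity of the number of spanning trees. -/
theorem trees_match (E : Finset (Sym2 V)) (hE : ∀ e ∈ E, ¬ e.IsDiag) (r : V) :
    ((Trees E).card : ZMod 2) = ∑ T ∈ Trees E, ((PiR (RE E) T).card : ZMod 2) := by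
  classical
  have h := det_omega (IncE E r) (RE E) (RE_symm E) (fun e h => h.1 rfl)
    (incB E r) (fun _ _ => rfl) ((incB E r)ᵀ * matK {v : V // v ≠ r} * incB E r)
    (fun e f => BKB_eq E hE r e f)
  rw [det_block_twist, det_block_one, ← trees_det E hE r] at h
  rw [h, Finset.sum_congr rfl fun T _ => by rw [phi_card E hE r T]]
  have : ∀ T, (if T ∈ Trees E then (1 : ZMod 2) else 0) * ((PiR (RE E) T).card : ZMod 2)
      = if T ∈ Trees E then ((PiR (RE E) T).card : ZMod 2) else 0 := by
    intro T; split_ifs <;> simp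
  rw [Finset.sum_congr rfl fun T _ => this T, ← Finset.sum_filter]
  congr 1
  ext T; simp

end Pool.Agent.Helper65.DC
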