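import Mathlib

set_option autoImplicit false

namespace Pool.Agent.Helper65.DC

open Finset Matrix

/-! ### Determinants of symmetric matrices over `ZMod 2` as sums over involutions -/

theorem sign_smul_zmod2 {α : Type*} [Fintype α] [DecidableEq α] (σ : Equiv.Perm α) (x : ZMod 2) :
    Equiv.Perm.sign σ • x = x := by
  rcases Int.units_eq_one_or (Equiv.Perm.sign σ) with h | h
  · rw [h]; simp
  · rw [h]; rw [Units.neg_smul, one_smul]; exact ZMod.neg_eq_self_mod_two x

theorem det_zmod2 {α : Type*} [Fintype α] [DecidableEq α] (A : Matrix α α (ZMod 2)) :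
    A.det = ∑ σ : Equiv.Perm α, ∏ i, A (σ i) i := by
  rw [Matrix.det_apply]
  exact Finset.sum_congr rfl fun σ _ => sign_smul_zmod2 σ _

theorem det_invol {α : Type*} [Fintype α] [DecidableEq α] (A : Matrix α α (ZMod 2))
    (hA : ∀ i j, A i j = A j i) :
    A.det = ∑ σ ∈ (Finset.univ.filter fun σ : Equiv.Perm α => σ * σ = 1), ∏ i, A (σ i) i := by
  classical
  rw [det_zmod2, ← Finset.sum_filter_add_sum_filter_not Finset.univ (fun σ : Equiv.Perm α => σ * σ = 1)]
  have h0 : ∑ σ ∈ (Finset.univ.filter fun σ : Equiv.Perm α => ¬ (σ * σ = 1)), ∏ i, A (σ i) i = 0 := by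
    have key : ∀ σ : Equiv.Perm α, ∏ i, A (σ⁻¹ i) i = ∏ i, A (σ i) i := by
      intro σ
      rw [← Equiv.prod_comp σ (fun i => A (σ⁻¹ i) i)]
      refine Finset.prod_congr rfl fun i _ => ?_
      have h1 : σ⁻¹ (σ i) = i := σ.symm_apply_apply i
      show A (σ⁻¹ (σ i)) (σ i) = A (σ i) i
      rw [h1, hA]
    refine Finset.sum_involution (fun σ _ => σ⁻¹) ?_ ?_ ?_ ?_
    · intro σ _
      rw [key σ]; exact CharTwo.add_self_eq_zero _
    · intro σ hσ _ he
      rw [Finset.mem_filter] at hσ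
      apply hσ.2
      have h2 : σ⁻¹ * σ = 1 := inv_mul_cancel σ
      have h3 : σ⁻¹ = σ := he
      rw [h3] at h2
      exact h2
    · intro σ hσ
      rw [Finset.mem_filter] at hσ ⊢
      refine ⟨Finset.mem_univ _, fun he => hσ.2 ?_⟩
      have : (σ * σ)⁻¹ = 1 := by rw [_root_.mul_inv_rev]; exact he
      rwa [inv_eq_one] at this
    · intro σ _; exact inv_inv σ
  rw [h0, add_zero]

/-! ### The block matrix -/

variable {ι κ : Type*} [Fintype ι] [DecidableEq ι] [Fintype κ] [DecidableEq κ]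

theorem det_block_twist (B : Matrix κ ι (ZMod 2)) (K : Matrix κ κ (ZMod 2)) :
    (Matrix.fromBlocks (1 + Bᵀ * K * B) Bᵀ B 0).det
      = (Matrix.fromBlocks (1 : Matrix ι ι (ZMod 2)) Bᵀ B 0).det := by
  have h : Matrix.fromBlocks (1 + Bᵀ * K * B) Bᵀ B 0
      = Matrix.fromBlocks (1 : Matrix ι ι (ZMod 2)) (Bᵀ * K) 0 1 *
        Matrix.fromBlocks (1 : Matrix ι ι (ZMod 2)) Bᵀ B 0 := by
    rw [Matrix.fromBlocks_multiply]
    simp
  rw [h, Matrix.det_mul, Matrix.det_fromBlocks_zero₂₁, Matrix.det_one, Matrix.det_one]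
  simp

theorem det_block_one (B : Matrix κ ι (ZMod 2)) :
    (Matrix.fromBlocks (1 : Matrix ι ι (ZMod 2)) Bᵀ B 0).det = (B * Bᵀ).det := by
  rw [Matrix.det_fromBlocks_one₁₁, zero_sub]
  congr 1
  ext i j
  rw [Matrix.neg_apply]
  exact ZMod.neg_eq_self_mod_two _

end Pool.Agent.Helper65.DC
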