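import Pool.Agent.Helper65.DC.Fin

set_option autoImplicit false

namespace Pool.Agent.Helper65.DC

open Finset Matrix

variable {V : Type*} [Fintype V] [DecidableEq V]

/-- the Laplacian of the edge set `S` applied to `x`, modulo 2 -/
def cross (S : Finset (Sym2 V)) (x : V → ZMod 2) (v : V) : ZMod 2 := ∑ w ∈ nb S v, (x v + x w)

theorem cross_symm (S : Finset (Sym2 V)) (x y : V → ZMod 2) :
    ∑ v, y v * cross S x v = ∑ v, x v * cross S y v := by
  unfold cross
  have h : ∀ x y : V → ZMod 2, ∑ v, y v * ∑ w ∈ nb S v, (x v + x w)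
      = ∑ v, ∑ w ∈ nb S v, y v * x v + ∑ v, ∑ w ∈ nb S v, y v * x w := by
    intro x y
    rw [← Finset.sum_add_distrib]
    refine Finset.sum_congr rfl fun v _ => ?_
    rw [Finset.mul_sum, ← Finset.sum_add_distrib]
    exact Finset.sum_congr rfl fun w _ => by ring
  rw [h, h]
  congr 1
  · exact Finset.sum_congr rfl fun v _ => Finset.sum_congr rfl fun w _ => mul_comm _ _
  · rw [Finset.sum_comm' (t' := Finset.univ) (s' := fun w => nb S w)
      (fun v w => by rw [mem_nb, mem_nb, Sym2.eq_swap]; simp)]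
    exact Finset.sum_congr rfl fun v _ => Finset.sum_congr rfl fun w _ => mul_comm _ _

theorem sum_cross (S : Finset (Sym2 V)) (x : V → ZMod 2) : ∑ v, cross S x v = 0 := by
  have h := cross_symm S x (fun _ => 1)
  simp only [one_mul] at h
  rw [h]
  refine Finset.sum_eq_zero fun v _ => ?_
  have : cross S (fun _ => (1 : ZMod 2)) v = 0 := by
    unfold cross
    exact Finset.sum_eq_zero fun w _ => CharTwo.add_self_eq_zero _
  rw [this, mul_zero]

theorem vecMul_incB (E : Finset (Sym2 V)) (hE : ∀ e ∈ E, ¬ e.IsDiag) (r : V)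
    (x : {v : V // v ≠ r} → ZMod 2) (v : {v : V // v ≠ r}) :
    (x ᵥ* (incB E r * (incB E r)ᵀ)) v = cross E (ext0 r x) v.1 := by
  classical
  rw [← Matrix.vecMul_vecMul]
  have h1 : ((x ᵥ* incB E r) ᵥ* (incB E r)ᵀ) v = ∑ e, (x ᵥ* incB E r) e * incB E r v e := rfl
  rw [h1]
  have h2 : (∑ e, (x ᵥ* incB E r) e * incB E r v e) = ∑ e ∈ star E v.1, (x ᵥ* incB E r) e := by
    have : star E v.1 = Finset.univ.filter fun e => v.1 ∈ e ∧ e ∈ E := by
      ext e; rw [mem_star, Finset.mem_filter]; simp [and_comm]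
    rw [this, Finset.sum_filter]
    refine Finset.sum_congr rfl fun e _ => ?_
    unfold incB IncE
    split_ifs <;> simp
  rw [h2]
  unfold cross
  symm
  refine Finset.sum_bij (fun w _ => s(v.1, w)) ?_ ?_ ?_ ?_
  · intro w hw
    exact (mem_star _ _ _).2 ⟨(mem_nb _ _ _).1 hw, Sym2.mem_mk_left v.1 w⟩
  · intro a _ b _ h
    exact Sym2.congr_right.1 h
  · intro e he
    obtain ⟨h1, h2⟩ := (mem_star _ _ _).1 he
    obtain ⟨w, rfl⟩ := h2
    exact ⟨w, (mem_nb _ _ _).2 h1, rfl⟩
  · intro w hw
    have hm := (mem_nb _ _ _).1 hw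
    have hne : v.1 ≠ w := fun h => hE _ hm (Sym2.mk_isDiag_iff.2 h)
    rw [← vecMul_edge r x v.1 w hne]
    show _ = ∑ u, x u * incB E r u s(v.1, w)
    refine Finset.sum_congr rfl fun u _ => ?_
    unfold incB IncE
    by_cases hu : u.1 ∈ s(v.1, w)
    · rw [if_pos hu, if_pos ⟨hu, hm⟩, mul_one]
    · rw [if_neg hu, if_neg (fun h => hu h.1), mul_zero]

/-- if no non-constant potential is in the kernel, the number of spanning trees is odd -/
theorem tau_odd (E : Finset (Sym2 V)) (hE : ∀ e ∈ E, ¬ e.IsDiag) [Nonempty V]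
    (h : ∀ x : V → ZMod 2, (∀ v, cross E x v = 0) → ∀ a b, x a = x b) :
    ((Trees E).card : ZMod 2) = 1 := by
  obtain ⟨r⟩ := ‹Nonempty V›
  apply zmod2_one
  rw [trees_det E hE r]
  intro h0
  obtain ⟨x, hx0, hx⟩ := Matrix.exists_vecMul_eq_zero_iff.2 h0
  apply hx0
  have h1 : ∀ v, v ≠ r → cross E (ext0 r x) v = 0 := by
    intro v hv
    have := congrFun hx ⟨v, hv⟩
    rw [vecMul_incB E hE r x ⟨v, hv⟩] at this
    exact this
  have h2 : cross E (ext0 r x) r = 0 := by
    have h3 := sum_cross E (ext0 r x)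
    rw [Finset.sum_eq_single r (fun b _ hb => h1 b hb) (fun h => absurd (Finset.mem_univ r) h)] at h3
    exact h3
  have h4 := h (ext0 r x) (fun v => by
    by_cases hv : v = r
    · rw [hv]; exact h2
    · exact h1 v hv)
  funext v
  have h5 := h4 v.1 r
  have h6 : ext0 r x r = 0 := by simp [ext0]
  have h7 : ext0 r x v.1 = x v := by unfold ext0; rw [dif_pos v.2]
  rw [h6, h7] at h5
  exact h5

/-- if the kernel has dimension at most two, one may delete at most one edge to make it trivial -/
theorem exists_edge (E : Finset (Sym2 V)) (hE : ∀ e ∈ E, ¬ e.IsDiag) [Nonempty V] (hsp : Sp E)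
    (hu : ∀ x y : V → ZMod 2, (∀ v, cross E x v = 0) → (∀ v, cross E y v = 0) →
      (∃ a b, x a ≠ x b) → (∃ a b, y a ≠ y b) → ∀ a b, x a = x b → y a = y b) :
    ∃ X ⊆ E, X.card ≤ 1 ∧ ((Trees (E \ X)).card : ZMod 2) = 1 := by
  classical
  by_cases h : ∀ x : V → ZMod 2, (∀ v, cross E x v = 0) → ∀ a b, x a = x b
  · refine ⟨∅, Finset.empty_subset _, by simp, ?_⟩
    rw [Finset.sdiff_empty]
    exact tau_odd E hE h
  push Not at h
  obtain ⟨y, hy, a0, b0, hab⟩ := h
  obtain ⟨u, w, huw, hyuw⟩ : ∃ u w, s(u, w) ∈ E ∧ y u ≠ y w := by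
    by_contra hne
    push Not at hne
    exact hab (hsp y hne a0 b0)
  refine ⟨{s(u, w)}, by simpa using huw, by simp, ?_⟩
  have huw' : u ≠ w := fun h => hyuw (by rw [h])
  apply tau_odd _ (fun e he => hE e (Finset.mem_sdiff.1 he).1)
  intro x hx
  by_contra hne
  push Not at hne
  -- the kernel equation in E
  have hcr : ∀ v, cross E x v = if v = u ∨ v = w then x u + x w else 0 := by
    intro v
    have hsub : nb (E \ {s(u, w)}) v ⊆ nb E v := by
      intro c hc
      rw [mem_nb] at hc ⊢
      exact (Finset.mem_sdiff.1 hc).1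
    have h1 := Finset.sum_sdiff (f := fun c => x v + x c) hsub
    have h2 : cross E x v = ∑ c ∈ nb E v \ nb (E \ {s(u, w)}) v, (x v + x c) := by
      have h3 := hx v
      unfold cross at h3 ⊢
      rw [← h1, h3, add_zero]
    rw [h2]
    have hm : ∀ c, c ∈ nb E v \ nb (E \ {s(u, w)}) v ↔ s(v, c) = s(u, w) := by
      intro c
      rw [Finset.mem_sdiff, mem_nb, mem_nb, Finset.mem_sdiff, Finset.mem_singleton]
      constructor
      · rintro ⟨h1, h2⟩
        by_contra h3
        exact h2 ⟨h1, h3⟩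
      · intro h
        refine ⟨by rw [h]; exact huw, fun h' => h'.2 h⟩
    by_cases hvu : v = u
    · subst hvu
      have : nb E v \ nb (E \ {s(v, w)}) v = {w} := by
        ext c; rw [hm, Finset.mem_singleton]; exact Sym2.congr_right
      rw [this, Finset.sum_singleton, if_pos (Or.inl rfl)]
    · by_cases hvw : v = w
      · subst hvw
        have : nb E v \ nb (E \ {s(u, v)}) v = {u} := by
          ext c; rw [hm, Finset.mem_singleton, Sym2.eq_swap]; exact Sym2.congr_left
        rw [this, Finset.sum_singleton, if_pos (Or.inr rfl), add_comm]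
      · have : nb E v \ nb (E \ {s(u, w)}) v = ∅ := by
          rw [Finset.eq_empty_iff_forall_notMem]
          intro c hc
          rw [hm] at hc
          have : v ∈ s(u, w) := by rw [← hc]; exact Sym2.mem_mk_left _ _
          rcases Sym2.mem_iff.1 this with h | h
          · exact hvu h
          · exact hvw h
        rw [this, Finset.sum_empty, if_neg (by tauto)]
  have h3 := cross_symm E x y
  rw [Finset.sum_eq_zero (fun v _ => by rw [hy v, mul_zero] : ∀ v ∈ Finset.univ, x v * cross E y v = 0)] at h3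
  have h4 : ∑ v, y v * cross E x v = (y u + y w) * (x u + x w) := by
    have h5 : ∀ v, y v * cross E x v
        = (if v = u then y u * (x u + x w) else 0) + (if v = w then y w * (x u + x w) else 0) := by
      intro v
      rw [hcr]
      by_cases hvu : v = u
      · subst hvu
        simp [huw']
      · by_cases hvw : v = w
        · subst hvw
          simp [hvu]
        · simp [hvu, hvw]
    rw [Finset.sum_congr rfl fun v _ => h5 v, Finset.sum_add_distrib, Finset.sum_ite_eq',
      Finset.sum_ite_eq']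
    simp
    ring
  rw [h4] at h3
  have h5 : y u + y w = 1 := zmod2_one fun h => hyuw (zmod2_add_eq_zero.1 h)
  rw [h5, one_mul] at h3
  have h6 : x u = x w := zmod2_add_eq_zero.1 h3
  have h7 : ∀ v, cross E x v = 0 := by
    intro v
    rw [hcr, h3]
    simp
  exact hyuw (hu x y h7 hy hne ⟨a0, b0, hab⟩ u w h6)

/-- every vertex has an even number of neighbours on the other side of `A` -/
def EvenCut {V : Type*} (J : SimpleGraph V) (A : Set V) : Prop :=
  ∀ v, Even {w | J.Adj v w ∧ ¬ (w ∈ A ↔ v ∈ A)}.ncard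

theorem cross_eq (S : Finset (Sym2 V)) (x : V → ZMod 2) (v : V) :
    cross S x v = (((nb S v).filter fun w => x w ≠ x v).card : ZMod 2) := by
  unfold cross
  rw [Finset.card_filter]
  push_cast
  refine Finset.sum_congr rfl fun w _ => ?_
  by_cases h : x w = x v
  · rw [h]; simp [CharTwo.add_self_eq_zero]
  · rw [if_pos h]
    exact zmod2_one fun h' => h (zmod2_add_eq_zero.1 h').symm

theorem evenCut_of_cross (J : SimpleGraph V) (S : Finset (Sym2 V))
    (hS : ∀ v w, s(v, w) ∈ S ↔ J.Adj v w) (x : V → ZMod 2)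
    (hx : ∀ v, cross S x v = 0) : EvenCut J {v | x v = 1} := by
  intro v
  have h1 := hx v
  rw [cross_eq] at h1
  have h2 : {w | J.Adj v w ∧ ¬ (w ∈ {v | x v = 1} ↔ v ∈ {v | x v = 1})}.ncard
      = ((nb S v).filter fun w => x w ≠ x v).card := by
    rw [← Set.ncard_coe_finset]
    congr 1
    ext w
    rw [Finset.mem_coe, Finset.mem_filter, mem_nb, hS]
    simp only [Set.mem_ofPred_eq]
    refine and_congr_right fun _ => ?_
    have : ∀ a b : ZMod 2, ¬ (a = 1 ↔ b = 1) ↔ a ≠ b := by decide
    exact this _ _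
  rw [h2]
  rw [← ZMod.natCast_eq_zero_iff_even]
  exact h1

end Pool.Agent.Helper65.DC
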