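import Pool.Agent.Helper65.DC.Swap

set_option autoImplicit false

namespace Pool.Agent.Helper65.DC

open Finset

variable {V : Type*} [Fintype V] [DecidableEq V]

/-- the graph formed by the edges of `E` inside `W` -/
def GW (E : Finset (Sym2 V)) (W : Set V) : SimpleGraph V where
  Adj u w := u ≠ w ∧ u ∈ W ∧ w ∈ W ∧ s(u, w) ∈ E
  symm := ⟨fun u w h => ⟨h.1.symm, h.2.2.1, h.2.1, by rw [Sym2.eq_swap]; exact h.2.2.2⟩⟩
  loopless := ⟨fun u h => h.1 rfl⟩

/-- `X` is scattered with respect to the vertex set `W` -/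
def Scat (E X : Finset (Sym2 V)) (W : Set V) : Prop :=
  ∀ e ∈ X, ∀ f ∈ X, ∀ a ∈ e, ∀ b ∈ f, a ∈ W → b ∈ W → (GW E W).Reachable a b → e = f

/-- number of neighbours in `B` or through `X` -/
def bd (E X : Finset (Sym2 V)) (B : Finset V) (v : V) : ℕ :=
  ((nb E v).filter fun w => w ∈ B ∨ s(v, w) ∈ X).card

theorem av_bd {E X : Finset (Sym2 V)} (B : Finset V) (v : V) :
    (av (E \ X) B v).card + bd E X B v = (nb E v).card := by
  unfold bd
  rw [← Finset.card_filter_add_card_filter_not (s := nb E v) (fun w => w ∈ B ∨ s(v, w) ∈ X), add_comm]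
  congr 2
  ext w
  rw [mem_av, Finset.mem_filter, mem_nb, Finset.mem_sdiff]
  push Not
  tauto

/-- `B` spans no edge and is not touched by `X` -/
def Free (E X : Finset (Sym2 V)) (B : Finset V) : Prop :=
  ∀ v ∈ B, ∀ w, s(v, w) ∈ E → w ∉ B ∧ s(v, w) ∉ X

omit [Fintype V] in
theorem dg_adj {E : Finset (Sym2 V)} {B : Finset V} {v w : V} (hw : w ∈ B) (h : s(v, w) ∈ E) :
    0 < dg E B v := Finset.card_pos.2 ⟨w, Finset.mem_filter.2 ⟨hw, h⟩⟩

/-- if all numbers `bd` on `B` are `0` or `2`, an `X`-edge at `B` lies inside `B` -/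
theorem inside {E X : Finset (Sym2 V)} (hX : X ⊆ E) (hnd : ∀ e ∈ E, ¬ e.IsDiag) {W : Set V}
    (hsc : Scat E X W) {B : Finset V} (hBW : ∀ v ∈ B, v ∈ W)
    (hb : ∀ v ∈ B, bd E X B v = 0 ∨ bd E X B v = 2) {v w : V} (hv : v ∈ B) (hvw : s(v, w) ∈ X) :
    w ∈ B := by
  classical
  by_contra hw
  -- graph on the component of v
  let K : SimpleGraph V := GW E (B : Set V)
  let H : SimpleGraph V :=
    { Adj := fun a b => K.Adj a b ∧ K.Reachable v a
      symm := ⟨fun a b h => ⟨h.1.symm, h.2.trans h.1.reachable⟩⟩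
      loopless := ⟨fun a h => h.1.1 rfl⟩ }
  have hKW : K ≤ GW E W := by
    intro a b h
    exact ⟨h.1, hBW _ (by exact_mod_cast h.2.1), hBW _ (by exact_mod_cast h.2.2.1), h.2.2.2⟩
  have hdeg : ∀ a ∈ B, K.Reachable v a → H.degree a = dg E B a := by
    intro a ha hr
    rw [← SimpleGraph.card_neighborFinset_eq_degree]
    unfold dg
    congr 1
    ext b
    rw [SimpleGraph.mem_neighborFinset, Finset.mem_filter]
    constructor
    · rintro ⟨h, -⟩
      exact ⟨by exact_mod_cast h.2.2.1, h.2.2.2⟩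
    · rintro ⟨h1, h2⟩
      refine ⟨⟨fun h => hnd _ h2 (Sym2.mk_isDiag_iff.2 h), by exact_mod_cast ha, by exact_mod_cast h1, h2⟩, hr⟩
  -- degrees at v
  have hv1 : Odd (H.degree v) := by
    rw [hdeg v hv (SimpleGraph.Reachable.refl v)]
    have h1 : bd E X B v = dg E B v + 1 := by
      unfold bd dg
      have : ((nb E v).filter fun w => w ∈ B ∨ s(v, w) ∈ X)
          = insert w (B.filter fun w => s(v, w) ∈ E) := by
        ext u
        rw [Finset.mem_filter, mem_nb, Finset.mem_insert, Finset.mem_filter]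
        constructor
        · rintro ⟨h1, h2 | h2⟩
          · exact Or.inr ⟨h2, h1⟩
          · left
            have := hsc _ h2 _ hvw v (Sym2.mem_mk_left _ _) v (Sym2.mem_mk_left _ _) (hBW v hv) (hBW v hv)
              (SimpleGraph.Reachable.refl v)
            exact Sym2.congr_right.1 this
        · rintro (rfl | ⟨h1, h2⟩)
          · exact ⟨hX hvw, Or.inr hvw⟩
          · exact ⟨h2, Or.inl h1⟩
      rw [this, Finset.card_insert_of_notMem (fun h => hw (Finset.mem_filter.1 h).1)]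
    have h2 := hb v hv
    have h3 : dg E B v = 1 := by omega
    rw [h3]; exact odd_one
  obtain ⟨u, huv, hu⟩ := SimpleGraph.exists_ne_odd_degree_of_exists_odd_degree H v hv1
  have hu0 : 0 < H.degree u := hu.pos
  obtain ⟨u', hu'⟩ : ∃ u', H.Adj u u' := by
    rw [← SimpleGraph.card_neighborFinset_eq_degree] at hu0
    obtain ⟨u', h⟩ := Finset.card_pos.1 hu0
    exact ⟨u', (SimpleGraph.mem_neighborFinset _ _ _).1 h⟩
  have huB : u ∈ B := by exact_mod_cast hu'.1.2.1
  have hur : K.Reachable v u := hu'.2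
  rw [hdeg u huB hur] at hu
  have h3 := hb u huB
  -- some X-edge at u leaves B
  have h4 : ∃ a, s(u, a) ∈ X ∧ a ∉ B := by
    by_contra hne
    push Not at hne
    have : bd E X B u = dg E B u := by
      unfold bd dg
      congr 1
      ext a
      rw [Finset.mem_filter, mem_nb, Finset.mem_filter]
      constructor
      · rintro ⟨h1, h2 | h2⟩
        · exact ⟨h2, h1⟩
        · exact ⟨hne a h2, h1⟩
      · rintro ⟨h1, h2⟩
        exact ⟨h2, Or.inl h1⟩
    rw [← this] at hu
    rcases h3 with h3 | h3 <;> rw [h3] at hu <;> exact absurd hu (by decide)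
  obtain ⟨a, ha1, ha2⟩ := h4
  have h5 := hsc _ ha1 _ hvw u (Sym2.mem_mk_left _ _) v (Sym2.mem_mk_left _ _) (hBW u huB) (hBW v hv)
    (hur.symm.mono hKW)
  have h6 : u ∈ s(v, w) := by rw [← h5]; exact Sym2.mem_mk_left _ _
  rcases Sym2.mem_iff.1 h6 with h | h
  · exact huv h
  · exact hw (h ▸ huB)

theorem term {E X : Finset (Sym2 V)} (hA : Amb E) (hX : X ⊆ E) {W : Set V} (hsc : Scat E X W)
    (hW : ∀ T ∈ Trees (E \ X), ∀ v ∈ Lf E T, v ∈ W) (B : Finset V) [Decidable (Free E X B)] :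
    ((TB E (E \ X) B).card : ZMod 2) * (kap E B : ZMod 2)
      = if Free E X B then ((TB E (E \ X) B).card : ZMod 2) else 0 := by
  classical
  have hE' : E \ X ⊆ E := Finset.sdiff_subset
  by_cases hz : ((TB E (E \ X) B).card : ZMod 2) = 0
  · rw [hz]; simp
  -- there is a tree
  have hne : (TB E (E \ X) B).Nonempty := by
    rw [Finset.nonempty_iff_ne_empty]
    intro h
    rw [h] at hz
    simp at hz
  obtain ⟨T, hT⟩ := hne
  obtain ⟨hT1, hB⟩ := (mem_TB _ _ _ _).1 hT
  obtain ⟨hTE', hTc, hsp⟩ := (mem_Trees _ _).1 hT1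
  have hTE : T ⊆ E := hTE'.trans hE'
  have hBW : ∀ v ∈ B, v ∈ W := fun v hv => hW T hT1 v (hB hv)
  have hb : ∀ v ∈ B, bd E X B v = 0 ∨ bd E X B v = 2 := by
    intro v hv
    obtain ⟨m, hm⟩ := tb_card hA hE' hv
    have h1 := av_bd (E := E) (X := X) B v
    rw [(leaf_facts hA hTE hsp (hB hv)).1] at h1
    have h2 : ¬ Even (av (E \ X) B v).card := by
      intro h
      apply hz
      rw [hm]
      obtain ⟨k, hk⟩ := h
      rw [hk]
      push_cast
      have : (k : ZMod 2) + k = 0 := CharTwo.add_self_eq_zero _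
      rw [this, zero_mul]
    rw [Nat.not_even_iff_odd] at h2
    obtain ⟨k, hk⟩ := h2
    omega
  have hin : ∀ v ∈ B, ∀ w, s(v, w) ∈ X → w ∈ B := fun v hv w hvw =>
    inside hX hA.nd hsc hBW hb hv hvw
  have hbd : ∀ v ∈ B, bd E X B v = dg E B v := by
    intro v hv
    unfold bd dg
    congr 1
    ext a
    rw [Finset.mem_filter, mem_nb, Finset.mem_filter]
    constructor
    · rintro ⟨h1, h2 | h2⟩
      · exact ⟨h2, h1⟩
      · exact ⟨hin v hv a h2, h1⟩
    · rintro ⟨h1, h2⟩
      exact ⟨h2, Or.inl h1⟩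
  by_cases hF : Free E X B
  · rw [if_pos hF, kap_one, Nat.cast_one, mul_one]
    intro v hv
    unfold dg
    rw [Finset.card_eq_zero, Finset.filter_eq_empty_iff]
    intro w hw hvw
    exact (hF v hv w hvw).1 hw
  · rw [if_neg hF, kap_even, mul_zero]
    · intro v hv
      rw [← hbd v hv]
      exact hb v hv
    · by_contra hne
      push Not at hne
      apply hF
      intro v hv w hvw
      have h0 : dg E B v = 0 := by
        have h1 := hb v hv
        rw [hbd v hv] at h1
        exact h1.resolve_right (hne v hv)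
      constructor
      · intro hw
        have := dg_adj hw hvw
        omega
      · intro hwX
        have := dg_adj (hin v hv w hwX) hvw
        omega

theorem free_ind {E X : Finset (Sym2 V)} (hA : Amb E) {T : Finset (Sym2 V)}
    (hT : T ∈ Trees (E \ X)) (B : Finset V) :
    (Free E X B ∧ B ⊆ Lf E T) ↔ B ∈ Ind ((E \ X) \ T) := by
  obtain ⟨hTE', hTc, hsp⟩ := (mem_Trees _ _).1 hT
  have hTE : T ⊆ E := hTE'.trans Finset.sdiff_subset
  have hTX : ∀ e ∈ T, e ∉ X := fun e he => (Finset.mem_sdiff.1 (hTE' he)).2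
  rw [mem_Ind]
  constructor
  · rintro ⟨hF, hB⟩
    constructor
    · intro v hv
      rw [star_card, ← (mem_Lf _ _ _).1 (hB hv)]
      congr 1
      ext w
      simp only [mem_nb, Finset.mem_sdiff]
      constructor
      · rintro ⟨⟨h1, -⟩, h3⟩; exact ⟨h1, h3⟩
      · rintro ⟨h1, h3⟩; exact ⟨⟨h1, (hF v hv w h1).2⟩, h3⟩
    · intro v hv w hw _ hvw
      have h1 := (Finset.mem_sdiff.1 (Finset.mem_sdiff.1 hvw).1).1
      exact (hF v hv w h1).1 hw
  · rintro ⟨h1, h2⟩
    have hsub : ∀ v, nb ((E \ X) \ T) v ⊆ nb (E \ T) v := by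
      intro v w hw
      simp only [mem_nb, Finset.mem_sdiff] at hw ⊢
      exact ⟨hw.1.1, hw.2⟩
    have heq : ∀ v ∈ B, nb ((E \ X) \ T) v = nb (E \ T) v := by
      intro v hv
      have h3 := h1 v hv
      rw [star_card] at h3
      exact Finset.eq_of_subset_of_card_le (hsub v) (by rw [h3]; exact codeg_le hA hTE hsp v)
    have hL : B ⊆ Lf E T := by
      intro v hv
      rw [mem_Lf, ← heq v hv, ← star_card]
      exact h1 v hv
    refine ⟨?_, hL⟩
    intro v hv w hvw
    have hX' : s(v, w) ∉ X := by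
      intro h
      have h3 : w ∈ nb (E \ T) v := by
        rw [mem_nb, Finset.mem_sdiff]
        exact ⟨hvw, fun h' => hTX _ h' h⟩
      rw [← heq v hv, mem_nb, Finset.mem_sdiff, Finset.mem_sdiff] at h3
      exact h3.1.2 h
    refine ⟨fun hw => ?_, hX'⟩
    have hne : v ≠ w := fun h => hA.nd _ hvw (Sym2.mk_isDiag_iff.2 h)
    apply h2 v hv w hw hne
    rw [Finset.mem_sdiff, Finset.mem_sdiff]
    exact ⟨⟨hvw, hX'⟩, leaf_not_adj T hsp hA.big v w (leaf_facts hA hTE hsp (hL hv)).2
      (leaf_facts hA hTE hsp (hL hw)).2⟩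

open scoped Classical in
/-- **The parity theorem**, in terms of edge sets. -/
theorem parity {E X : Finset (Sym2 V)} (hA : Amb E) (hX : X ⊆ E) {W : Set V} (hsc : Scat E X W)
    (hW : ∀ T ∈ Trees (E \ X), ∀ v ∈ Lf E T, v ∈ W) :
    (((Trees (E \ X)).filter fun T => Good E T).card : ZMod 2) = ((Trees (E \ X)).card : ZMod 2) := by
  have hE' : E \ X ⊆ E := Finset.sdiff_subset
  obtain ⟨r⟩ : Nonempty V := Fintype.card_pos_iff.1 (by have := hA.big; omega)
  -- first part
  have h1 : (((Trees (E \ X)).filter fun T => Good E T).card : ZMod 2)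
      = ∑ T ∈ Trees (E \ X), ∑ B ∈ (Lf E T).powerset, (kap E B : ZMod 2) := by
    rw [Finset.card_filter]
    push_cast
    refine Finset.sum_congr rfl fun T hT => ?_
    obtain ⟨hTE', hTc, hsp⟩ := (mem_Trees _ _).1 hT
    rw [sum_kap]
    have := good_iff hA (hTE'.trans hE') hsp
    by_cases h : Good E T
    · rw [if_pos h, if_pos (this.1 h)]
    · rw [if_neg h, if_neg (fun h' => h (this.2 h'))]
  have h2 : (∑ T ∈ Trees (E \ X), ∑ B ∈ (Lf E T).powerset, (kap E B : ZMod 2))
      = ∑ B : Finset V, ∑ T ∈ TB E (E \ X) B, (kap E B : ZMod 2) := by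
    refine Finset.sum_comm' ?_
    intro T B
    rw [mem_TB, Finset.mem_powerset]
    simp
  have h3 : (∑ B : Finset V, ∑ T ∈ TB E (E \ X) B, (kap E B : ZMod 2))
      = ∑ B : Finset V, ∑ T ∈ TB E (E \ X) B, (if Free E X B then (1 : ZMod 2) else 0) := by
    refine Finset.sum_congr rfl fun B _ => ?_
    rw [Finset.sum_const, Finset.sum_const, nsmul_eq_mul, nsmul_eq_mul,
      term hA hX hsc hW B]
    split_ifs <;> simp
  have h4 : (∑ B : Finset V, ∑ T ∈ TB E (E \ X) B, (if Free E X B then (1 : ZMod 2) else 0))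
      = ∑ T ∈ Trees (E \ X), ∑ B ∈ (Lf E T).powerset, (if Free E X B then (1 : ZMod 2) else 0) := by
    symm
    refine Finset.sum_comm' ?_
    intro T B
    rw [mem_TB, Finset.mem_powerset]
    simp
  have h5 : (∑ T ∈ Trees (E \ X), ∑ B ∈ (Lf E T).powerset, (if Free E X B then (1 : ZMod 2) else 0))
      = ∑ T ∈ Trees (E \ X), ((PiR (RE (E \ X)) T).card : ZMod 2) := by
    refine Finset.sum_congr rfl fun T hT => ?_
    obtain ⟨hTE', hTc, hsp⟩ := (mem_Trees _ _).1 hT
    have hTE := hTE'.trans hE'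
    rw [match_card]
    · rw [← Finset.sum_filter, Finset.sum_const, nsmul_eq_mul, mul_one]
      congr 2
      ext B
      rw [Finset.mem_filter, Finset.mem_powerset, ← free_ind hA hT]
      tauto
    · intro v
      rw [star_card]
      refine le_trans (Finset.card_le_card ?_) (codeg_le hA hTE hsp v)
      intro w hw
      simp only [mem_nb, Finset.mem_sdiff] at hw ⊢
      exact ⟨hw.1.1, hw.2⟩
  rw [h1, h2, h3, h4, h5]
  exact (trees_match (E \ X) (fun e he => hA.nd e (hE' he)) r).symm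

end Pool.Agent.Helper65.DC
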