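import Pool.Agent.Helper65.DC.Graph

set_option autoImplicit false

namespace Pool.Agent.Helper65.DC

open Finset

variable {V : Type*} [Fintype V] [DecidableEq V]

open scoped Classical in
/-- edges of `S` at `v` -/
noncomputable def star (S : Finset (Sym2 V)) (v : V) : Finset (Sym2 V) :=
  S.filter fun e => v ∈ e

omit [Fintype V] in
theorem mem_star (S : Finset (Sym2 V)) (v : V) (e : Sym2 V) : e ∈ star S v ↔ e ∈ S ∧ v ∈ e := by
  classical
  unfold star; rw [Finset.mem_filter]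

open scoped Classical in
/-- sets of vertices `I` with exactly two `S`-edges at each vertex, no `S`-edge inside -/
noncomputable def Ind (S : Finset (Sym2 V)) : Finset (Finset V) :=
  univ.filter fun I => (∀ v ∈ I, (star S v).card = 2) ∧ ∀ v ∈ I, ∀ w ∈ I, v ≠ w → s(v, w) ∉ S

theorem mem_Ind (S : Finset (Sym2 V)) (I : Finset V) :
    I ∈ Ind S ↔ (∀ v ∈ I, (star S v).card = 2) ∧ ∀ v ∈ I, ∀ w ∈ I, v ≠ w → s(v, w) ∉ S := by
  classical
  unfold Ind; rw [Finset.mem_filter]
  exact ⟨fun h => h.2, fun h => ⟨Finset.mem_univ _, h⟩⟩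

/-- an involution from a symmetric, functional, irreflexive relation -/
theorem exists_invol {ι : Type*} (Q : ι → ι → Prop) (hs : ∀ e f, Q e f → Q f e)
    (hf : ∀ e f g, Q e f → Q e g → f = g) :
    ∃ π : Equiv.Perm ι, π * π = 1 ∧ (∀ e, π e ≠ e → Q e (π e)) ∧ ∀ e f, Q e f → π e = f := by
  classical
  let p : ι → ι := fun e => if h : ∃ f, Q e f then h.choose else e
  have h1 : ∀ e f, Q e f → p e = f := by
    intro e f h
    have h' : ∃ f, Q e f := ⟨f, h⟩
    have : p e = h'.choose := dif_pos h'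
    rw [this]; exact hf e _ _ h'.choose_spec h
  have h2 : ∀ e, p e ≠ e → Q e (p e) := by
    intro e he
    by_cases h : ∃ f, Q e f
    · obtain ⟨f, hf'⟩ := h
      rw [h1 e f hf']; exact hf'
    · exact absurd (dif_neg h) he
  have h3 : Function.Involutive p := by
    intro e
    by_cases he : p e = e
    · rw [he, he]
    · exact h1 _ _ (hs _ _ (h2 e he))
  refine ⟨h3.toPerm p, ?_, h2, h1⟩
  refine Equiv.ext fun e => ?_
  simp [h3 e]

theorem pair_of_card_two {α : Type*} [DecidableEq α] {s : Finset α} (hs : s.card ≤ 2) {a b c : α}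
    (ha : a ∈ s) (hb : b ∈ s) (hab : a ≠ b) (hc : c ∈ s) : c = a ∨ c = b := by
  by_contra h
  push Not at h
  have h1 : ({a, b, c} : Finset α) ⊆ s := by
    intro x hx
    simp only [Finset.mem_insert, Finset.mem_singleton] at hx
    rcases hx with rfl | rfl | rfl <;> assumption
  have h2 : ({a, b, c} : Finset α).card = 3 := by
    rw [Finset.card_eq_three]
    exact ⟨a, b, c, hab, h.1.symm, h.2.symm, rfl⟩
  have := Finset.card_le_card h1
  omega

theorem match_card (E T : Finset (Sym2 V)) (h2 : ∀ v, (star (E \ T) v).card ≤ 2) :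
    (PiR (RE E) T).card = (Ind (E \ T)).card := by
  classical
  -- facts on members of PiR
  have hQ : ∀ π, π ∈ PiR (RE E) T → (∀ e, π (π e) = e) ∧
      ∀ e, π e ≠ e → e ∈ E \ T ∧ π e ∈ E \ T ∧ ∃ v, v ∈ π e ∧ v ∈ e := by
    intro π hπ
    obtain ⟨h1, h3⟩ := (mem_PiR _ _ _).1 hπ
    have h4 : ∀ e, π (π e) = e := fun e => by
      have := congrArg (fun q : Equiv.Perm (Sym2 V) => q e) h1; simpa using this
    refine ⟨h4, fun e he => ?_⟩
    obtain ⟨h5, h6⟩ := h3 e he
    have he' : π (π e) ≠ π e := by rw [h4]; exact Ne.symm he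
    obtain ⟨h7, h8⟩ := h3 (π e) he'
    exact ⟨Finset.mem_sdiff.2 ⟨h5.2.2.1, h6⟩, Finset.mem_sdiff.2 ⟨h5.2.1, h8⟩, h5.2.2.2⟩
  let I : Equiv.Perm (Sym2 V) → Finset V :=
    fun π => univ.filter fun v => ∃ e, π e ≠ e ∧ v ∈ e ∧ v ∈ π e
  have hI : ∀ π v, v ∈ I π ↔ ∃ e, π e ≠ e ∧ v ∈ e ∧ v ∈ π e := by
    intro π v; simp [I]
  refine Finset.card_bij (fun π _ => I π) ?_ ?_ ?_
  · intro π hπ
    obtain ⟨hp, hq⟩ := hQ π hπ
    rw [mem_Ind]
    -- the two S-edges
    have hst : ∀ v e, π e ≠ e → v ∈ e → v ∈ π e → e ∈ star (E \ T) v ∧ π e ∈ star (E \ T) v := by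
      intro v e he h3 h4
      obtain ⟨h5, h6, -⟩ := hq e he
      exact ⟨(mem_star _ _ _).2 ⟨h5, h3⟩, (mem_star _ _ _).2 ⟨h6, h4⟩⟩
    constructor
    · intro v hv
      obtain ⟨e, he, h3, h4⟩ := (hI π v).1 hv
      obtain ⟨h5, h6⟩ := hst v e he h3 h4
      have h7 : ({e, π e} : Finset (Sym2 V)) ⊆ star (E \ T) v := by
        intro x hx
        simp only [Finset.mem_insert, Finset.mem_singleton] at hx
        rcases hx with rfl | rfl <;> assumption
      have h8 := Finset.card_le_card h7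
      rw [Finset.card_pair (Ne.symm he)] at h8
      exact le_antisymm (h2 v) h8
    · intro v hv w hw hvw hs
      obtain ⟨e, he, h3, h4⟩ := (hI π v).1 hv
      obtain ⟨h5, h6⟩ := hst v e he h3 h4
      obtain ⟨e', he', h3', h4'⟩ := (hI π w).1 hw
      obtain ⟨h5', h6'⟩ := hst w e' he' h3' h4'
      have hm : s(v, w) ∈ star (E \ T) v := (mem_star _ _ _).2 ⟨hs, Sym2.mem_mk_left v w⟩
      have hm' : s(v, w) ∈ star (E \ T) w := (mem_star _ _ _).2 ⟨hs, Sym2.mem_mk_right v w⟩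
      -- π moves s(v,w) and the image contains v
      have a1 : π s(v, w) ≠ s(v, w) ∧ v ∈ π s(v, w) := by
        rcases pair_of_card_two (h2 v) h5 h6 (Ne.symm he) hm with h | h
        · rw [h]; exact ⟨he, h4⟩
        · rw [h, hp]; exact ⟨Ne.symm he, h3⟩
      have a2 : π s(v, w) ≠ s(v, w) ∧ w ∈ π s(v, w) := by
        rcases pair_of_card_two (h2 w) h5' h6' (Ne.symm he') hm' with h | h
        · rw [h]; exact ⟨he', h4'⟩
        · rw [h, hp]; exact ⟨Ne.symm he', h3'⟩
      exact a1.1 ((Sym2.mem_and_mem_iff hvw).1 ⟨a1.2, a2.2⟩)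
  · -- injectivity
    have key : ∀ π π', π ∈ PiR (RE E) T → π' ∈ PiR (RE E) T → I π = I π' →
        ∀ e, π e ≠ e → π' e = π e := by
      intro π π' hπ hπ' heq e he
      obtain ⟨hp, hq⟩ := hQ π hπ
      obtain ⟨hp', hq'⟩ := hQ π' hπ'
      obtain ⟨h5, h6, v, hv1, hv2⟩ := hq e he
      have hv : v ∈ I π' := by rw [← heq, hI]; exact ⟨e, he, hv2, hv1⟩
      obtain ⟨e', he', hv1', hv2'⟩ := (hI π' v).1 hv
      obtain ⟨h5', h6', -⟩ := hq' e' he'
      have m1 : e' ∈ star (E \ T) v := (mem_star _ _ _).2 ⟨h5', hv1'⟩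
      have m2 : π' e' ∈ star (E \ T) v := (mem_star _ _ _).2 ⟨h6', hv2'⟩
      have m3 : e ∈ star (E \ T) v := (mem_star _ _ _).2 ⟨h5, hv2⟩
      have m4 : π e ∈ star (E \ T) v := (mem_star _ _ _).2 ⟨h6, hv1⟩
      rcases pair_of_card_two (h2 v) m1 m2 (Ne.symm he') m3 with h | h
      · rcases pair_of_card_two (h2 v) m1 m2 (Ne.symm he') m4 with h' | h'
        · exact absurd (h'.trans h.symm) he
        · rw [h', h]
      · rcases pair_of_card_two (h2 v) m1 m2 (Ne.symm he') m4 with h' | h'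
        · rw [h', h, hp']
        · exact absurd (h'.trans h.symm) he
    intro π hπ π' hπ' heq
    refine Equiv.ext fun e => ?_
    by_cases he : π e = e
    · by_cases he' : π' e = e
      · rw [he, he']
      · exact key π' π hπ' hπ heq.symm e he'
    · exact (key π π' hπ hπ' heq e he).symm
  · -- surjectivity
    intro K hK
    obtain ⟨hK1, hK2⟩ := (mem_Ind _ _).1 hK
    let Q : Sym2 V → Sym2 V → Prop := fun e f =>
      e ∈ E \ T ∧ f ∈ E \ T ∧ f ≠ e ∧ ∃ v ∈ K, v ∈ e ∧ v ∈ f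
    have hs : ∀ e f, Q e f → Q f e := fun e f ⟨a, b, c, v, d, e1, e2⟩ => ⟨b, a, c.symm, v, d, e2, e1⟩
    have huniq : ∀ e ∈ E \ T, ∀ v ∈ K, ∀ w ∈ K, v ∈ e → w ∈ e → v = w := by
      intro e he v hv w hw h3 h4
      by_contra hne
      have := (Sym2.mem_and_mem_iff hne).1 ⟨h3, h4⟩
      rw [this] at he
      exact hK2 v hv w hw hne he
    have hfun : ∀ e f g, Q e f → Q e g → f = g := by
      rintro e f g ⟨a, b, c, v, d, e1, e2⟩ ⟨a', b', c', v', d', e1', e2'⟩
      have hvv : v = v' := huniq e a v d v' d' e1 e1'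
      subst hvv
      have m1 : e ∈ star (E \ T) v := (mem_star _ _ _).2 ⟨a, e1⟩
      have m2 : f ∈ star (E \ T) v := (mem_star _ _ _).2 ⟨b, e2⟩
      have m3 : g ∈ star (E \ T) v := (mem_star _ _ _).2 ⟨b', e2'⟩
      rcases pair_of_card_two (h2 v) m1 m2 c.symm m3 with h | h
      · exact absurd h c'
      · exact h.symm
    obtain ⟨π, hπ1, hπ2, hπ3⟩ := exists_invol Q hs hfun
    refine ⟨π, ?_, ?_⟩
    · rw [mem_PiR]
      refine ⟨hπ1, fun e he => ?_⟩
      obtain ⟨a, b, c, v, d, e1, e2⟩ := hπ2 e he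
      rw [Finset.mem_sdiff] at a b
      exact ⟨⟨c, b.1, a.1, v, e2, e1⟩, a.2⟩
    · ext v
      rw [hI]
      constructor
      · rintro ⟨e, he, h3, h4⟩
        obtain ⟨a, b, c, w, d, e1, e2⟩ := hπ2 e he
        by_cases hvw : v = w
        · rw [hvw]; exact d
        · exfalso
          have t1 := (Sym2.mem_and_mem_iff hvw).1 ⟨h3, e1⟩
          have t2 := (Sym2.mem_and_mem_iff hvw).1 ⟨h4, e2⟩
          exact he (t2.trans t1.symm)
      · intro hv
        have hc := hK1 v hv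
        obtain ⟨e, f, hef, hst⟩ := Finset.card_eq_two.1 hc
        have m1 : e ∈ star (E \ T) v := by rw [hst]; simp
        have m2 : f ∈ star (E \ T) v := by rw [hst]; simp
        obtain ⟨a1, a2⟩ := (mem_star _ _ _).1 m1
        obtain ⟨b1, b2⟩ := (mem_star _ _ _).1 m2
        have hq : Q e f := ⟨a1, b1, hef.symm, v, hv, a2, b2⟩
        have := hπ3 e f hq
        exact ⟨e, by rw [this]; exact hef.symm, a2, by rw [this]; exact b2⟩

end Pool.Agent.Helper65.DC
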