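import Pool.Agent.Helper65.DC.Inv

set_option autoImplicit false

namespace Pool.Agent.Helper65.DC

open Finset Matrix Sum

open scoped Classical in
/-- injective choices of incident elements with image `T` -/
noncomputable def Phi {ι κ : Type*} [Fintype ι] [DecidableEq ι] [Fintype κ] [DecidableEq κ] (Inc : κ → ι → Prop) (T : Finset ι) :
    Finset (κ → ι) :=
  univ.filter fun φ => Function.Injective φ ∧ (∀ v, Inc v (φ v)) ∧ univ.image φ = T

open scoped Classical in
/-- involutions moving only pairs related by `R`, away from `T` -/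
noncomputable def PiR {ι : Type*} [Fintype ι] [DecidableEq ι] (R : ι → ι → Prop) (T : Finset ι) :
    Finset (Equiv.Perm ι) :=
  univ.filter fun π => π * π = 1 ∧ ∀ e, π e ≠ e → R (π e) e ∧ e ∉ T

theorem mem_PiR {ι : Type*} [Fintype ι] [DecidableEq ι] (R : ι → ι → Prop) (T : Finset ι)
    (π : Equiv.Perm ι) :
    π ∈ PiR R T ↔ π * π = 1 ∧ ∀ e, π e ≠ e → R (π e) e ∧ e ∉ T := by
  classical
  unfold PiR
  rw [Finset.mem_filter]
  exact ⟨fun h => h.2, fun h => ⟨Finset.mem_univ _, h⟩⟩

/-- the map `s` built from `φ` and `π` -/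
noncomputable def sMap {ι κ : Type*} (φ : κ → ι) (π : ι → ι) : ι ⊕ κ → ι ⊕ κ := by
  classical
  exact fun x => match x with
    | inr v => inl (φ v)
    | inl e => if h : ∃ v, φ v = e then inr h.choose else inl (π e)

theorem sMap_inr {ι κ : Type*} (φ : κ → ι) (π : ι → ι) (v : κ) :
    sMap φ π (inr v) = inl (φ v) := rfl

theorem sMap_inl_pos {ι κ : Type*} (φ : κ → ι) (hφ : Function.Injective φ) (π : ι → ι) (v : κ) :
    sMap φ π (inl (φ v)) = inr v := by
  classical
  have h : ∃ v', φ v' = φ v := ⟨v, rfl⟩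
  have : sMap φ π (inl (φ v)) = inr h.choose := by
    unfold sMap; simp only; rw [dif_pos h]
  rw [this, hφ h.choose_spec]

theorem sMap_inl_neg {ι κ : Type*} (φ : κ → ι) (π : ι → ι) (e : ι) (h : ¬ ∃ v, φ v = e) :
    sMap φ π (inl e) = inl (π e) := by
  classical
  unfold sMap; simp only; rw [dif_neg h]

/-- the compatibility relation given by the block matrix -/
def Gr {ι κ : Type*} (Inc : κ → ι → Prop) (R : ι → ι → Prop) : ι ⊕ κ → ι ⊕ κ → Prop
  | inl e, inl f => e = f ∨ R e f
  | inl e, inr v => Inc v e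
  | inr v, inl e => Inc v e
  | inr _, inr _ => False

open scoped Classical in
noncomputable def Omega {ι κ : Type*} [Fintype ι] [DecidableEq ι] [Fintype κ] [DecidableEq κ]
    (Inc : κ → ι → Prop) (R : ι → ι → Prop) : Finset (Equiv.Perm (ι ⊕ κ)) :=
  univ.filter fun σ => σ * σ = 1 ∧ ∀ x, Gr Inc R (σ x) x

open scoped Classical in
noncomputable def Tof {ι κ : Type*} [Fintype ι] [DecidableEq ι] (σ : Equiv.Perm (ι ⊕ κ)) : Finset ι :=
  univ.filter fun e => ∃ v, σ (inl e) = inr v

theorem mem_Tof {ι κ : Type*} [Fintype ι] [DecidableEq ι] (σ : Equiv.Perm (ι ⊕ κ)) (e : ι) :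
    e ∈ Tof σ ↔ ∃ v, σ (inl e) = inr v := by
  classical
  unfold Tof; rw [Finset.mem_filter]; simp

theorem fiber_card {ι κ : Type*} [Fintype ι] [DecidableEq ι] [Fintype κ] [DecidableEq κ]
    (Inc : κ → ι → Prop) (R : ι → ι → Prop) (T : Finset ι) :
    ((Omega Inc R).filter fun σ => Tof σ = T).card = (Phi Inc T).card * (PiR R T).card := by
  classical
  rw [← Finset.card_product]
  symm
  -- membership facts
  have hP : ∀ φ, φ ∈ Phi Inc T ↔ Function.Injective φ ∧ (∀ v, Inc v (φ v)) ∧ ∀ e, e ∈ T ↔ ∃ v, φ v = e := by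
    intro φ
    unfold Phi
    rw [Finset.mem_filter]
    constructor
    · rintro ⟨-, h1, h2, h3⟩
      refine ⟨h1, h2, fun e => ?_⟩
      rw [← h3, Finset.mem_image]; simp
    · rintro ⟨h1, h2, h3⟩
      refine ⟨Finset.mem_univ _, h1, h2, ?_⟩
      ext e; rw [Finset.mem_image, h3]; simp
  have hQ : ∀ π, π ∈ PiR R T ↔ (∀ e, π (π e) = e) ∧ ∀ e, π e ≠ e → R (π e) e ∧ e ∉ T := by
    intro π
    unfold PiR
    rw [Finset.mem_filter]
    constructor
    · rintro ⟨-, h1, h2⟩
      exact ⟨fun e => by have := congrArg (fun q : Equiv.Perm ι => q e) h1; simpa using this, h2⟩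
    · rintro ⟨h1, h2⟩
      refine ⟨Finset.mem_univ _, ?_, h2⟩
      ext e; simpa using h1 e
  have hinv : ∀ φ π, φ ∈ Phi Inc T → π ∈ PiR R T → Function.Involutive (sMap φ (π : ι → ι)) := by
    intro φ π h1 h2
    obtain ⟨hi, hI, hT⟩ := (hP φ).1 h1
    obtain ⟨hp, hr⟩ := (hQ π).1 h2
    intro x
    rcases x with e | v
    · by_cases h : ∃ v, φ v = e
      · obtain ⟨v, rfl⟩ := h
        rw [sMap_inl_pos φ hi, sMap_inr]
      · rw [sMap_inl_neg φ π e h, sMap_inl_neg φ π (π e), hp]
        intro h'
        by_cases he : π e = e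
        · rw [he] at h'; exact h h'
        · have := (hr (π e) (by rw [hp]; exact Ne.symm he)).2
          exact this ((hT _).2 h')
    · rw [sMap_inr, sMap_inl_pos φ hi]
  refine Finset.card_bij (fun (q : (κ → ι) × Equiv.Perm ι) hq =>
    Function.Involutive.toPerm _
      (hinv q.1 q.2 (Finset.mem_product.1 hq).1 (Finset.mem_product.1 hq).2)) ?_ ?_ ?_
  · rintro ⟨φ, π⟩ hq
    have h1 := (Finset.mem_product.1 hq).1
    have h2 := (Finset.mem_product.1 hq).2
    obtain ⟨hi, hI, hT⟩ := (hP φ).1 h1
    obtain ⟨hp, hr⟩ := (hQ π).1 h2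
    simp only at *
    have hval : ∀ x, (Function.Involutive.toPerm _ (hinv φ π h1 h2) : Equiv.Perm (ι ⊕ κ)) x
        = sMap φ (π : ι → ι) x := fun x => rfl
    rw [Finset.mem_filter]
    unfold Omega
    rw [Finset.mem_filter]
    refine ⟨⟨Finset.mem_univ _, ?_, ?_⟩, ?_⟩
    · ext x
      simp [hinv φ π h1 h2 x]
    · intro x
      rw [hval]
      rcases x with e | v
      · by_cases h : ∃ v, φ v = e
        · obtain ⟨v, rfl⟩ := h
          rw [sMap_inl_pos φ hi]
          exact hI v
        · rw [sMap_inl_neg φ π e h]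
          show π e = e ∨ R (π e) e
          by_cases he : π e = e
          · exact Or.inl he
          · exact Or.inr (hr e he).1
      · rw [sMap_inr]
        exact hI v
    · ext e
      rw [mem_Tof, hT]
      constructor
      · rintro ⟨v, hv⟩
        by_contra h
        rw [hval, sMap_inl_neg φ π e h] at hv
        exact absurd hv (by simp)
      · rintro ⟨v, rfl⟩
        exact ⟨v, by rw [hval, sMap_inl_pos φ hi]⟩
  · rintro ⟨φ, π⟩ hq ⟨φ', π'⟩ hq' heq
    have h1 := (Finset.mem_product.1 hq).1
    have h2 := (Finset.mem_product.1 hq).2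
    have h1' := (Finset.mem_product.1 hq').1
    have h2' := (Finset.mem_product.1 hq').2
    obtain ⟨hi, hI, hT⟩ := (hP φ).1 h1
    obtain ⟨hp, hr⟩ := (hQ π).1 h2
    obtain ⟨hi', hI', hT'⟩ := (hP φ').1 h1'
    obtain ⟨hp', hr'⟩ := (hQ π').1 h2'
    have hval : ∀ x, sMap φ (π : ι → ι) x = sMap φ' (π' : ι → ι) x := by
      intro x
      have := congrArg (fun q : Equiv.Perm (ι ⊕ κ) => q x) heq
      exact this
    have e1 : φ = φ' := by
      funext v
      have := hval (inr v)
      rw [sMap_inr, sMap_inr] at this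
      exact Sum.inl_injective this
    have e2 : π = π' := by
      ext e
      by_cases h : ∃ v, φ v = e
      · have hm : e ∈ T := (hT e).2 h
        have a1 : π e = e := by
          by_contra hne; exact (hr e hne).2 hm
        have a2 : π' e = e := by
          by_contra hne; exact (hr' e hne).2 hm
        rw [a1, a2]
      · have h' : ¬ ∃ v, φ' v = e := by rw [← e1]; exact h
        have := hval (inl e)
        rw [sMap_inl_neg _ _ _ h, sMap_inl_neg _ _ _ h'] at this
        exact Sum.inl_injective this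
    rw [e1, e2]
  · intro σ hσ
    rw [Finset.mem_filter] at hσ
    obtain ⟨hσ1, hσT⟩ := hσ
    unfold Omega at hσ1
    rw [Finset.mem_filter] at hσ1
    obtain ⟨-, hs, hg⟩ := hσ1
    have hss : ∀ x, σ (σ x) = x := fun x => by
      have := congrArg (fun q : Equiv.Perm (ι ⊕ κ) => q x) hs; simpa using this
    have hex : ∀ v : κ, ∃ e : ι, σ (inr v) = inl e := by
      intro v
      rcases h : σ (inr v) with e | w
      · exact ⟨e, rfl⟩
      · have := hg (inr v)
        rw [h] at this
        exact this.elim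
    choose φ hφ using hex
    let p : ι → ι := fun e => match σ (inl e) with
      | inl f => f
      | inr _ => e
    have hp1 : ∀ e f, σ (inl e) = inl f → p e = f := by
      intro e f h; show (match σ (inl e) with | inl f => f | inr _ => e) = f; rw [h]
    have hp2 : ∀ e v, σ (inl e) = inr v → p e = e := by
      intro e v h; show (match σ (inl e) with | inl f => f | inr _ => e) = e; rw [h]
    have hpi : Function.Involutive p := by
      intro e
      rcases h : σ (inl e) with f | v
      · have h' : σ (inl f) = inl e := by rw [← h, hss]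
        rw [hp1 e f h, hp1 f e h']
      · rw [hp2 e v h, hp2 e v h]
    have hφT : ∀ e, e ∈ T ↔ ∃ v, φ v = e := by
      intro e
      rw [← hσT, mem_Tof]
      constructor
      · rintro ⟨v, hv⟩
        refine ⟨v, ?_⟩
        have : σ (inr v) = inl e := by rw [← hv, hss]
        rw [hφ] at this
        exact Sum.inl_injective this
      · rintro ⟨v, rfl⟩
        exact ⟨v, by rw [← hφ, hss]⟩
    have hφi : Function.Injective φ := by
      intro v w hvw
      have : σ (inr v) = σ (inr w) := by rw [hφ, hφ, hvw]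
      exact Sum.inr_injective (σ.injective this)
    have hmemφ : φ ∈ Phi Inc T := by
      rw [hP]
      refine ⟨hφi, fun v => ?_, hφT⟩
      have := hg (inr v)
      rw [hφ] at this
      exact this
    have hmemπ : (Function.Involutive.toPerm p hpi) ∈ PiR R T := by
      rw [hQ]
      refine ⟨fun e => hpi e, fun e he => ?_⟩
      change p e ≠ e at he
      change R (p e) e ∧ e ∉ T
      rcases h : σ (inl e) with f | v
      · rw [hp1 e f h] at he ⊢
        have := hg (inl e)
        rw [h] at this
        refine ⟨this.resolve_left he, fun hm => ?_⟩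
        rw [← hσT, mem_Tof] at hm
        obtain ⟨v, hv⟩ := hm
        rw [h] at hv
        exact absurd hv (by simp)
      · exact absurd (hp2 e v h) he
    refine ⟨(φ, (Function.Involutive.toPerm p hpi)), Finset.mem_product.2 ⟨hmemφ, hmemπ⟩, ?_⟩
    apply Equiv.ext
    intro x
    show sMap φ ((Function.Involutive.toPerm p hpi) : ι → ι) x = σ x
    rcases x with e | v
    · by_cases h : ∃ v, φ v = e
      · obtain ⟨v, rfl⟩ := h
        rw [sMap_inl_pos φ hφi, ← hφ, hss]
      · rw [sMap_inl_neg _ _ _ h]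
        rcases h' : σ (inl e) with f | v
        · show inl (p e) = inl f
          rw [hp1 e f h']
        · exfalso
          apply h
          have : e ∈ T := by rw [← hσT, mem_Tof]; exact ⟨v, h'⟩
          exact (hφT e).1 this
    · rw [sMap_inr, hφ]

theorem omega_card {ι κ : Type*} [Fintype ι] [DecidableEq ι] [Fintype κ] [DecidableEq κ]
    (Inc : κ → ι → Prop) (R : ι → ι → Prop) :
    (Omega Inc R).card = ∑ T : Finset ι, (Phi Inc T).card * (PiR R T).card := by
  classical
  rw [Finset.card_eq_sum_card_fiberwise (f := Tof) (t := (Finset.univ : Finset (Finset ι)))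
    (fun _ _ => Finset.mem_univ _)]
  exact Finset.sum_congr rfl fun T _ => fiber_card Inc R T

open scoped Classical in
theorem det_omega {ι κ : Type*} [Fintype ι] [DecidableEq ι] [Fintype κ] [DecidableEq κ]
    (Inc : κ → ι → Prop) (R : ι → ι → Prop) (hsym : ∀ e f, R e f → R f e) (hirr : ∀ e, ¬ R e e)
    (B : Matrix κ ι (ZMod 2)) (hB : ∀ v e, B v e = if Inc v e then 1 else 0)
    (N : Matrix ι ι (ZMod 2)) (hN : ∀ e f, N e f = if R e f then 1 else 0) :
    (Matrix.fromBlocks (1 + N) Bᵀ B 0).det
      = ∑ T : Finset ι, ((Phi Inc T).card : ZMod 2) * ((PiR R T).card : ZMod 2) := by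
  set A := Matrix.fromBlocks (1 + N) Bᵀ B 0 with hA
  have hAG : ∀ x y, A x y = if Gr Inc R x y then 1 else 0 := by
    intro x y
    rcases x with e | v <;> rcases y with f | w
    · show (1 + N) e f = _
      rw [Matrix.add_apply, hN]
      by_cases h : e = f
      · subst h
        rw [Matrix.one_apply_eq, if_neg (hirr e)]
        simp [Gr]
      · rw [Matrix.one_apply_ne h]
        by_cases hR : R e f
        · simp [Gr, hR]
        · simp [Gr, hR, h]
    · show B w e = _
      rw [hB]; rfl
    · show B v f = _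
      rw [hB]; rfl
    · show (0 : ZMod 2) = _
      simp [Gr]
  have hGs : ∀ x y, Gr Inc R x y → Gr Inc R y x := by
    intro x y h
    rcases x with e | v <;> rcases y with f | w
    · rcases h with h | h
      · exact Or.inl h.symm
      · exact Or.inr (hsym _ _ h)
    · exact h
    · exact h
    · exact h
  have hAs : ∀ x y, A x y = A y x := by
    intro x y
    rw [hAG, hAG]
    by_cases h : Gr Inc R x y
    · rw [if_pos h, if_pos (hGs _ _ h)]
    · rw [if_neg h, if_neg (fun h' => h (hGs _ _ h'))]
  rw [det_invol A hAs]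
  have hprod : ∀ σ : Equiv.Perm (ι ⊕ κ), ∏ x, A (σ x) x = if ∀ x, Gr Inc R (σ x) x then 1 else 0 := by
    intro σ
    by_cases h : ∀ x, Gr Inc R (σ x) x
    · rw [if_pos h]
      exact Finset.prod_eq_one fun x _ => by rw [hAG, if_pos (h x)]
    · rw [if_neg h]
      push Not at h
      obtain ⟨x, hx⟩ := h
      exact Finset.prod_eq_zero (Finset.mem_univ x) (by rw [hAG, if_neg hx])
  rw [Finset.sum_congr rfl fun σ _ => hprod σ, ← Finset.sum_filter, Finset.filter_filter]
  have : (∑ σ ∈ Finset.univ.filter (fun σ : Equiv.Perm (ι ⊕ κ) => σ * σ = 1 ∧ ∀ x, Gr Inc R (σ x) x), (1 : ZMod 2))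
      = ((Omega Inc R).card : ZMod 2) := by
    rw [Finset.sum_const, nsmul_eq_mul, mul_one]
    congr 2
  rw [this, omega_card]
  push_cast
  rfl

end Pool.Agent.Helper65.DC
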