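import Pool.Agent.Helper65.DC.Omega

set_option autoImplicit false

namespace Pool.Agent.Helper65.DC

open Finset Matrix

variable {V : Type*} [Fintype V] [DecidableEq V]

/-- every `ZMod 2`-valued function constant along the edges of `T` is constant -/
def Sp (T : Finset (Sym2 V)) : Prop :=
  ∀ x : V → ZMod 2, (∀ u w, s(u, w) ∈ T → x u = x w) → ∀ u w, x u = x w

open scoped Classical in
/-- the (edge sets of the) spanning trees inside the edge set `E` -/
noncomputable def Trees (E : Finset (Sym2 V)) : Finset (Finset (Sym2 V)) :=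
  E.powerset.filter fun T => T.card + 1 = Fintype.card V ∧ Sp T

omit [DecidableEq V] in
theorem mem_Trees (E : Finset (Sym2 V)) (T : Finset (Sym2 V)) :
    T ∈ Trees E ↔ T ⊆ E ∧ T.card + 1 = Fintype.card V ∧ Sp T := by
  classical
  unfold Trees; rw [Finset.mem_filter, Finset.mem_powerset]

omit [Fintype V] [DecidableEq V] in
theorem sym2_ex (e : Sym2 V) : ∃ a b, e = s(a, b) := by
  induction e using Sym2.ind with
  | _ a b => exact ⟨a, b, rfl⟩

/-- incidence with an edge of `E`, for vertices different from the root -/
def IncE (E : Finset (Sym2 V)) (r : V) : {v : V // v ≠ r} → Sym2 V → Prop :=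
  fun v e => v.1 ∈ e ∧ e ∈ E

theorem zmod2_one {x : ZMod 2} (h : x ≠ 0) : x = 1 := by
  revert x; decide

theorem zmod2_add_eq_zero {x y : ZMod 2} : x + y = 0 ↔ x = y := by
  revert x y; decide

theorem card_root (r : V) : Fintype.card {v : V // v ≠ r} + 1 = Fintype.card V := by
  have := Fintype.card_subtype_compl (fun v : V => v = r)
  rw [Fintype.card_subtype_eq] at this
  have h1 : 0 < Fintype.card V := Fintype.card_pos_iff.2 ⟨r⟩
  have h2 : Fintype.card {v : V // v ≠ r} = Fintype.card {v : V // ¬ v = r} := rfl
  omega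

/-- extension by zero at the root -/
def ext0 (r : V) (x : {v : V // v ≠ r} → ZMod 2) : V → ZMod 2 :=
  fun a => if h : a ≠ r then x ⟨a, h⟩ else 0

theorem sum_root (r : V) (x : {v : V // v ≠ r} → ZMod 2) (e : Sym2 V) :
    (∑ v : {v : V // v ≠ r}, (if v.1 ∈ e then x v else 0))
      = ∑ a : V, (if a ∈ e then ext0 r x a else 0) := by
  classical
  have h1 : ∑ a : V, (if a ∈ e then ext0 r x a else 0)
      = ∑ a ∈ (Finset.univ.filter fun a : V => a ≠ r), (if a ∈ e then ext0 r x a else 0) := by
    symm
    apply Finset.sum_subset (Finset.filter_subset _ _)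
    intro a _ ha
    rw [Finset.mem_filter] at ha
    have ha' : a = r := by
      by_contra h; exact ha ⟨Finset.mem_univ _, h⟩
    subst ha'
    simp [ext0]
  rw [h1, ← Finset.sum_subtype_eq_sum_filter]
  symm
  refine Finset.sum_bij (fun a _ => a) ?_ ?_ ?_ ?_
  · intro a _; exact Finset.mem_univ _
  · intro a _ b _ h; exact h
  · intro b _; exact ⟨b, by simp, rfl⟩
  · intro a ha
    have h2 : (a.1 : V) ≠ r := a.2
    have h3 : ext0 r x a.1 = x a := by unfold ext0; rw [dif_pos h2]
    rw [h3]

theorem sum_edge (x : V → ZMod 2) (a b : V) (hab : a ≠ b) :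
    ∑ c : V, (if c ∈ s(a, b) then x c else 0) = x a + x b := by
  rw [← Finset.sum_filter]
  have : (Finset.univ.filter fun c : V => c ∈ s(a, b)) = {a, b} := by
    ext c; simp [Sym2.mem_iff]
  rw [this, Finset.sum_pair hab]

theorem vecMul_edge (r : V) (x : {v : V // v ≠ r} → ZMod 2) (a b : V) (hab : a ≠ b) :
    (∑ v : {v : V // v ≠ r}, (if v.1 ∈ s(a, b) then x v else 0)) = ext0 r x a + ext0 r x b := by
  rw [sum_root, sum_edge _ a b hab]

theorem phi_card (E : Finset (Sym2 V)) (hE : ∀ e ∈ E, ¬ e.IsDiag) (r : V)
    (T : Finset (Sym2 V)) :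
    ((Phi (IncE E r) T).card : ZMod 2) = if T ∈ Trees E then 1 else 0 := by
  classical
  have hmem : ∀ φ, φ ∈ Phi (IncE E r) T ↔
      Function.Injective φ ∧ (∀ v, v.1 ∈ φ v ∧ φ v ∈ E) ∧ univ.image φ = T := by
    intro φ; unfold Phi; rw [Finset.mem_filter]
    exact ⟨fun h => h.2, fun h => ⟨Finset.mem_univ _, h⟩⟩
  by_cases h0 : T ⊆ E ∧ T.card + 1 = Fintype.card V
  swap
  · have h1 : Phi (IncE E r) T = ∅ := by
      rw [Finset.eq_empty_iff_forall_notMem]
      intro φ hφ
      obtain ⟨h2, h3, h4⟩ := (hmem φ).1 hφ
      apply h0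
      constructor
      · rw [← h4]; intro e he
        obtain ⟨v, -, rfl⟩ := Finset.mem_image.1 he
        exact (h3 v).2
      · rw [← h4, Finset.card_image_of_injective _ h2, Finset.card_univ]
        exact card_root r
    have h5 : T ∉ Trees E := fun h => h0 ⟨((mem_Trees E T).1 h).1, ((mem_Trees E T).1 h).2.1⟩
    rw [h1, if_neg h5]; simp
  · obtain ⟨hTE, hTc⟩ := h0
    have hcard : Fintype.card {v : V // v ≠ r} = Fintype.card {e // e ∈ T} := by
      rw [Fintype.card_coe]; have := card_root r; omega
    let ψ : {v : V // v ≠ r} ≃ {e // e ∈ T} := Fintype.equivOfCardEq hcard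
    let D : Matrix {v : V // v ≠ r} {v : V // v ≠ r} (ZMod 2) :=
      fun v u => if v.1 ∈ (ψ u).1 then 1 else 0
    -- number of elements of Phi
    have hcount : ((Phi (IncE E r) T).card : ZMod 2) = D.det := by
      rw [det_zmod2]
      have hprod : ∀ σ : Equiv.Perm {v : V // v ≠ r},
          ∏ i, D (σ i) i = if ∀ i, (σ i).1 ∈ (ψ i).1 then 1 else 0 := by
        intro σ
        by_cases h : ∀ i, (σ i).1 ∈ (ψ i).1
        · rw [if_pos h]
          exact Finset.prod_eq_one fun i _ => if_pos (h i)
        · rw [if_neg h]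
          push Not at h
          obtain ⟨i, hi⟩ := h
          exact Finset.prod_eq_zero (Finset.mem_univ i) (if_neg hi)
      rw [Finset.sum_congr rfl fun σ _ => hprod σ, ← Finset.sum_filter, Finset.sum_const,
        nsmul_eq_mul, mul_one]
      congr 1
      symm
      refine Finset.card_bij (fun σ _ => fun v => (ψ (σ.symm v)).1) ?_ ?_ ?_
      · intro σ hσ
        rw [Finset.mem_filter] at hσ
        rw [hmem]
        refine ⟨?_, ?_, ?_⟩
        · intro v w h
          have := ψ.injective (Subtype.ext h)
          exact σ.symm.injective this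
        · intro v
          refine ⟨?_, hTE (ψ (σ.symm v)).2⟩
          have := hσ.2 (σ.symm v)
          rwa [Equiv.apply_symm_apply] at this
        · ext e
          rw [Finset.mem_image]
          constructor
          · rintro ⟨v, -, rfl⟩; exact (ψ (σ.symm v)).2
          · intro he
            refine ⟨σ (ψ.symm ⟨e, he⟩), Finset.mem_univ _, ?_⟩
            rw [Equiv.symm_apply_apply, Equiv.apply_symm_apply]
      · intro σ _ τ _ h
        have : ∀ v, σ.symm v = τ.symm v := fun v => ψ.injective (Subtype.ext (congrFun h v))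
        have h' : σ.symm = τ.symm := Equiv.ext this
        have := congrArg Equiv.symm h'
        simpa using this
      · intro φ hφ
        obtain ⟨h2, h3, h4⟩ := (hmem φ).1 hφ
        have hT : ∀ v, φ v ∈ T := fun v => by
          rw [← h4]; exact Finset.mem_image_of_mem _ (Finset.mem_univ _)
        let t : {v : V // v ≠ r} → {v : V // v ≠ r} := fun v => ψ.symm ⟨φ v, hT v⟩
        have ht : Function.Injective t := by
          intro v w h
          have := ψ.symm.injective h
          exact h2 (Subtype.ext_iff.1 this)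
        let τ : Equiv.Perm {v : V // v ≠ r} := Equiv.ofBijective t (Finite.injective_iff_bijective.1 ht)
        refine ⟨τ.symm, ?_, ?_⟩
        · rw [Finset.mem_filter]
          refine ⟨Finset.mem_univ _, fun i => ?_⟩
          have h5 : ψ (τ (τ.symm i)) = ⟨φ (τ.symm i), hT _⟩ := by
            show ψ (ψ.symm _) = _
            rw [Equiv.apply_symm_apply]
          rw [Equiv.apply_symm_apply] at h5
          rw [h5]
          exact (h3 _).1
        · funext v
          show (ψ (τ v)).1 = φ v
          show (ψ (ψ.symm _)).1 = φ v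
          rw [Equiv.apply_symm_apply]
    have hvm : ∀ x : {v : V // v ≠ r} → ZMod 2, x ᵥ* D = 0 ↔
        ∀ u w, s(u, w) ∈ T → ext0 r x u = ext0 r x w := by
      intro x
      constructor
      · intro h u w huw
        have hne : u ≠ w := fun h' => hE _ (hTE huw) (by rw [h']; exact Sym2.mk_isDiag_iff.2 rfl)
        have h1 := congrFun h (ψ.symm ⟨s(u, w), huw⟩)
        have h2 : (x ᵥ* D) (ψ.symm ⟨s(u, w), huw⟩)
            = ∑ v : {v : V // v ≠ r}, (if v.1 ∈ s(u, w) then x v else 0) := by
          show ∑ v, x v * D v _ = _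
          refine Finset.sum_congr rfl fun v _ => ?_
          show x v * (if v.1 ∈ (ψ (ψ.symm ⟨s(u, w), huw⟩)).1 then 1 else 0) = _
          rw [Equiv.apply_symm_apply]
          split_ifs <;> simp
        rw [h2, vecMul_edge r x u w hne] at h1
        exact zmod2_add_eq_zero.1 h1
      · intro h
        funext u
        obtain ⟨a, b, he⟩ := sym2_ex (ψ u).1
        have hm : s(a, b) ∈ T := by
          have := (ψ u).2
          rw [he] at this; exact this
        have hne : a ≠ b := fun h' => hE _ (hTE hm) (by rw [h']; exact Sym2.mk_isDiag_iff.2 rfl)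
        have h2 : (x ᵥ* D) u
            = ∑ v : {v : V // v ≠ r}, (if v.1 ∈ s(a, b) then x v else 0) := by
          show ∑ v, x v * D v _ = _
          refine Finset.sum_congr rfl fun v _ => ?_
          show x v * (if v.1 ∈ (ψ u).1 then 1 else 0) = _
          rw [he]
          show x v * (if v.1 ∈ s(a, b) then 1 else 0) = _
          split_ifs <;> simp
        rw [h2, vecMul_edge r x a b hne]
        exact zmod2_add_eq_zero.2 (h a b hm)
    have hdet : D.det = 0 ↔ ¬ Sp T := by
      rw [← Matrix.exists_vecMul_eq_zero_iff]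
      constructor
      · rintro ⟨x, hx0, hx⟩ hsp
        apply hx0
        have h1 := hsp (ext0 r x) ((hvm x).1 hx)
        funext v
        have h2 := h1 v.1 r
        have h3 : ext0 r x r = 0 := by simp [ext0]
        have h4 : ext0 r x v.1 = x v := by unfold ext0; rw [dif_pos v.2]
        rw [h3, h4] at h2
        exact h2
      · intro hsp
        unfold Sp at hsp
        push Not at hsp
        obtain ⟨x, hx, u, w, huw⟩ := hsp
        refine ⟨fun v => x v.1 + x r, ?_, ?_⟩
        · intro h0
          have h1 : ∀ a, x a = x r := by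
            intro a
            by_cases ha : a = r
            · rw [ha]
            · exact zmod2_add_eq_zero.1 (congrFun h0 ⟨a, ha⟩)
          exact huw ((h1 u).trans (h1 w).symm)
        · rw [hvm]
          intro a b hab
          have h1 : ∀ c, ext0 r (fun v => x v.1 + x r) c = x c + x r := by
            intro c
            by_cases hc : c = r
            · subst hc
              have : ext0 c (fun v => x v.1 + x c) c = 0 := by simp [ext0]
              rw [this]; exact (CharTwo.add_self_eq_zero _).symm
            · unfold ext0; rw [dif_pos hc]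
          rw [h1, h1, hx a b hab]
    rw [hcount]
    by_cases hsp : Sp T
    · rw [if_pos ((mem_Trees E T).2 ⟨hTE, hTc, hsp⟩)]
      exact zmod2_one fun h => (hdet.1 h) hsp
    · rw [if_neg (fun h => hsp ((mem_Trees E T).1 h).2.2)]
      exact hdet.2 hsp

end Pool.Agent.Helper65.DC
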