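import Pool.Agent.Helper65.DC.TreeFacts

set_option autoImplicit false

namespace Pool.Agent.Helper65.DC

open Finset

variable {V : Type*} [Fintype V] [DecidableEq V]

/-- spanning trees of `E'` such that all vertices of `B` have two cotree edges (in `E`) -/
noncomputable def TB (E E' : Finset (Sym2 V)) (B : Finset V) : Finset (Finset (Sym2 V)) :=
  (Trees E').filter fun T => B ⊆ Lf E T

theorem mem_TB (E E' : Finset (Sym2 V)) (B : Finset V) (T : Finset (Sym2 V)) :
    T ∈ TB E E' B ↔ T ∈ Trees E' ∧ B ⊆ Lf E T := by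
  unfold TB; rw [Finset.mem_filter]

/-- exchanging the tree edge at a leaf -/
theorem swap_mem {E E' : Finset (Sym2 V)} (hA : Amb E) (hE' : E' ⊆ E) {B : Finset V} {v : V}
    (hv : v ∈ B) {c c' : V} (hc : s(v, c) ∈ E' ∧ c ∉ B) (hc' : s(v, c') ∈ E' ∧ c' ∉ B)
    (hcc : c ≠ c') {T : Finset (Sym2 V)} (hT : T ∈ TB E E' B) (hcT : s(v, c) ∈ T) :
    insert s(v, c') (T.erase s(v, c)) ∈ TB E E' B ∧ s(v, c') ∉ T := by
  obtain ⟨hT1, hB⟩ := (mem_TB _ _ _ _).1 hT
  obtain ⟨hTE', hTc, hsp⟩ := (mem_Trees _ _).1 hT1
  have hTE : T ⊆ E := hTE'.trans hE'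
  have hv1 := leaf_facts hA hTE hsp (hB hv)
  have huniq : ∀ a, s(v, a) ∈ T → a = c := nb_unique T v c hv1.2 hcT
  have hc'T : s(v, c') ∉ T := fun h => hcc (huniq c' h).symm
  have hvc : v ≠ c := fun h => hA.nd _ (hTE hcT) (Sym2.mk_isDiag_iff.2 h)
  have hvc' : v ≠ c' := fun h => hA.nd _ (hE' hc'.1) (Sym2.mk_isDiag_iff.2 h)
  refine ⟨?_, hc'T⟩
  have hsub : insert s(v, c') (T.erase s(v, c)) ⊆ E' := by
    intro e he
    rcases Finset.mem_insert.1 he with rfl | he
    · exact hc'.1
    · exact hTE' (Finset.mem_of_mem_erase he)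
  have hcard : (insert s(v, c') (T.erase s(v, c))).card = T.card := by
    rw [Finset.card_insert_of_notMem (fun h => hc'T (Finset.mem_of_mem_erase h)),
      Finset.card_erase_of_mem hcT]
    have : 0 < T.card := Finset.card_pos.2 ⟨_, hcT⟩
    omega
  have hsp' : Sp (insert s(v, c') (T.erase s(v, c))) := by
    intro x hx
    have hxv : x v = x c' := hx v c' (Finset.mem_insert_self _ _)
    -- the modified function
    have h1 := hsp (fun u => if u = v then x c else x u) (by
      intro a b hab
      by_cases ha : a = v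
      · subst ha
        have hb := huniq b hab
        subst hb
        simp [Ne.symm hvc]
      · by_cases hb : b = v
        · subst hb
          rw [Sym2.eq_swap] at hab
          have ha' := huniq a hab
          subst ha'
          simp [ha]
        · simp only [ha, hb, if_false]
          apply hx
          refine Finset.mem_insert_of_mem (Finset.mem_erase.2 ⟨?_, hab⟩)
          intro h
          have : v ∈ s(a, b) := by rw [h]; exact Sym2.mem_mk_left v c
          rcases Sym2.mem_iff.1 this with h | h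
          · exact ha h.symm
          · exact hb h.symm)
    have h2 : ∀ u, x u = x c' := by
      intro u
      by_cases hu : u = v
      · rw [hu]; exact hxv
      · have := h1 u c'
        simpa [hu, Ne.symm hvc'] using this
    intro u w
    rw [h2 u, h2 w]
  rw [mem_TB, mem_Trees]
  refine ⟨⟨hsub, by rw [hcard]; exact hTc, hsp'⟩, fun u hu => ?_⟩
  have hu1 := leaf_facts hA hTE hsp (hB hu)
  have hsplit := nb_split (hsub.trans hE') u
  rw [mem_Lf]
  have hone : (nb (insert s(v, c') (T.erase s(v, c))) u).card = 1 := by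
    by_cases huv : u = v
    · subst huv
      rw [Finset.card_eq_one]
      refine ⟨c', ?_⟩
      ext w
      rw [mem_nb, Finset.mem_singleton, Finset.mem_insert, Finset.mem_erase]
      constructor
      · rintro (h | ⟨h, h'⟩)
        · exact Sym2.congr_right.1 h
        · exact absurd (by rw [huniq w h']) h
      · rintro rfl
        exact Or.inl rfl
    · have huc : u ≠ c := fun h => hc.2 (h ▸ hu)
      have huc' : u ≠ c' := fun h => hc'.2 (h ▸ hu)
      have : nb (insert s(v, c') (T.erase s(v, c))) u = nb T u := by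
        ext w
        rw [mem_nb, mem_nb, Finset.mem_insert, Finset.mem_erase]
        constructor
        · rintro (h | ⟨h, h'⟩)
          · exfalso
            have : u ∈ s(v, c') := by rw [← h]; exact Sym2.mem_mk_left u w
            rcases Sym2.mem_iff.1 this with h | h
            · exact huv h
            · exact huc' h
          · exact h'
        · intro h
          refine Or.inr ⟨fun h' => ?_, h⟩
          have : u ∈ s(v, c) := by rw [← h']; exact Sym2.mem_mk_left u w
          rcases Sym2.mem_iff.1 this with h | h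
          · exact huv h
          · exact huc h
      rw [this]; exact hu1.2
  omega

/-- available neighbours of `v` -/
def av (E' : Finset (Sym2 V)) (B : Finset V) (v : V) : Finset V := (nb E' v).filter fun c => c ∉ B

theorem mem_av (E' : Finset (Sym2 V)) (B : Finset V) (v c : V) :
    c ∈ av E' B v ↔ s(v, c) ∈ E' ∧ c ∉ B := by
  unfold av; rw [Finset.mem_filter, mem_nb]

theorem fiber_le {E E' : Finset (Sym2 V)} (hA : Amb E) (hE' : E' ⊆ E) {B : Finset V} {v : V}
    (hv : v ∈ B) {c c' : V} (hc : c ∈ av E' B v) (hc' : c' ∈ av E' B v) :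
    ((TB E E' B).filter fun T => s(v, c) ∈ T).card
      ≤ ((TB E E' B).filter fun T => s(v, c') ∈ T).card := by
  by_cases hcc : c = c'
  · rw [hcc]
  rw [mem_av] at hc hc'
  refine Finset.card_le_card_of_injOn (fun T => insert s(v, c') (T.erase s(v, c))) ?_ ?_
  · intro T hT
    rw [Finset.mem_coe, Finset.mem_filter] at hT
    rw [Finset.mem_coe, Finset.mem_filter]
    exact ⟨(swap_mem hA hE' hv hc hc' hcc hT.1 hT.2).1, Finset.mem_insert_self _ _⟩
  · intro T hT T' hT' heq
    rw [Finset.mem_coe, Finset.mem_filter] at hT hT'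
    have h1 := (swap_mem hA hE' hv hc hc' hcc hT.1 hT.2).2
    have h2 := (swap_mem hA hE' hv hc hc' hcc hT'.1 hT'.2).2
    simp only at heq
    have h3 : T.erase s(v, c) = T'.erase s(v, c) := by
      have e1 : (insert s(v, c') (T.erase s(v, c))).erase s(v, c') = T.erase s(v, c) :=
        Finset.erase_insert (fun h => h1 (Finset.mem_of_mem_erase h))
      have e2 : (insert s(v, c') (T'.erase s(v, c))).erase s(v, c') = T'.erase s(v, c) :=
        Finset.erase_insert (fun h => h2 (Finset.mem_of_mem_erase h))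
      rw [← e1, ← e2, heq]
    rw [← Finset.insert_erase hT.2, ← Finset.insert_erase hT'.2, h3]

theorem tb_card {E E' : Finset (Sym2 V)} (hA : Amb E) (hE' : E' ⊆ E) {B : Finset V} {v : V}
    (hv : v ∈ B) : ∃ m, (TB E E' B).card = (av E' B v).card * m := by
  have h1 : (TB E E' B).card
      = ∑ c ∈ av E' B v, ((TB E E' B).filter fun T => s(v, c) ∈ T).card := by
    have h2 := Finset.sum_card_bipartiteAbove_eq_sum_card_bipartiteBelow
      (s := TB E E' B) (t := av E' B v) (fun T c => s(v, c) ∈ T)
    unfold Finset.bipartiteAbove Finset.bipartiteBelow at h2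
    rw [← h2, Finset.card_eq_sum_ones]
    refine Finset.sum_congr rfl fun T hT => ?_
    symm
    obtain ⟨hT1, hB⟩ := (mem_TB _ _ _ _).1 hT
    obtain ⟨hTE', hTc, hsp⟩ := (mem_Trees _ _).1 hT1
    have hTE : T ⊆ E := hTE'.trans hE'
    have hv1 := leaf_facts hA hTE hsp (hB hv)
    obtain ⟨c, hc⟩ := Finset.card_eq_one.1 hv1.2
    have hcT : s(v, c) ∈ T := by rw [← mem_nb, hc]; exact Finset.mem_singleton_self c
    rw [Finset.card_eq_one]
    refine ⟨c, ?_⟩
    ext w
    rw [Finset.mem_filter, mem_av, Finset.mem_singleton]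
    constructor
    · rintro ⟨-, h⟩
      exact nb_unique T v c hv1.2 hcT w h
    · rintro rfl
      refine ⟨⟨hTE' hcT, fun hcB => ?_⟩, hcT⟩
      exact leaf_not_adj T hsp hA.big v w hv1.2 (leaf_facts hA hTE hsp (hB hcB)).2 hcT
  rcases (av E' B v).eq_empty_or_nonempty with h | ⟨c0, hc0⟩
  · exact ⟨0, by rw [h1, h]; simp⟩
  · refine ⟨((TB E E' B).filter fun T => s(v, c0) ∈ T).card, ?_⟩
    rw [h1]
    rw [Finset.sum_congr rfl fun c hc => le_antisymm (fiber_le hA hE' hv hc hc0) (fiber_le hA hE' hv hc0 hc)]
    rw [Finset.sum_const, smul_eq_mul]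

end Pool.Agent.Helper65.DC
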