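import Pool.Agent.Helper65.DC.Match

set_option autoImplicit false

namespace Pool.Agent.Helper65.DC

open Finset

variable {V : Type*} [Fintype V] [DecidableEq V]

/-- neighbours through edges of `S` -/
def nb (S : Finset (Sym2 V)) (v : V) : Finset V := univ.filter fun w => s(v, w) ∈ S

theorem mem_nb (S : Finset (Sym2 V)) (v w : V) : w ∈ nb S v ↔ s(v, w) ∈ S := by
  unfold nb; rw [Finset.mem_filter]; simp

theorem star_card (S : Finset (Sym2 V)) (v : V) : (star S v).card = (nb S v).card := by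
  symm
  refine Finset.card_bij (fun w _ => s(v, w)) ?_ ?_ ?_
  · intro w hw
    exact (mem_star _ _ _).2 ⟨(mem_nb _ _ _).1 hw, Sym2.mem_mk_left v w⟩
  · intro a _ b _ h
    exact Sym2.congr_right.1 h
  · intro e he
    obtain ⟨h1, h2⟩ := (mem_star _ _ _).1 he
    obtain ⟨w, rfl⟩ := h2
    exact ⟨w, (mem_nb _ _ _).2 h1, rfl⟩

theorem nb_split {E T : Finset (Sym2 V)} (h : T ⊆ E) (v : V) :
    (nb E v).card = (nb T v).card + (nb (E \ T) v).card := by
  rw [← Finset.card_union_of_disjoint]
  · congr 1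
    ext w
    simp only [Finset.mem_union, mem_nb, Finset.mem_sdiff]
    constructor
    · intro hw
      by_cases ht : s(v, w) ∈ T
      · exact Or.inl ht
      · exact Or.inr ⟨hw, ht⟩
    · rintro (hw | hw)
      · exact h hw
      · exact hw.1
  · rw [Finset.disjoint_left]
    intro w h1 h2
    rw [mem_nb] at h1 h2
    exact (Finset.mem_sdiff.1 h2).2 h1

/-- the vertices with two cotree edges -/
def Lf (E T : Finset (Sym2 V)) : Finset V := univ.filter fun v => (nb (E \ T) v).card = 2

theorem mem_Lf (E T : Finset (Sym2 V)) (v : V) : v ∈ Lf E T ↔ (nb (E \ T) v).card = 2 := by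
  unfold Lf; rw [Finset.mem_filter]; simp

theorem nb_pos (T : Finset (Sym2 V)) (hsp : Sp T) (hV : 2 ≤ Fintype.card V) (v : V) :
    0 < (nb T v).card := by
  rw [Finset.card_pos]
  by_contra h
  rw [Finset.not_nonempty_iff_eq_empty] at h
  have h0 : ∀ b, s(v, b) ∉ T := by
    intro b hb
    have : b ∈ nb T v := (mem_nb _ _ _).2 hb
    rw [h] at this
    simp at this
  have h1 := hsp (fun u => if u = v then 1 else 0) (by
    intro a b hab
    have ha : a ≠ v := by rintro rfl; exact h0 b hab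
    have hb : b ≠ v := by rintro rfl; rw [Sym2.eq_swap] at hab; exact h0 a hab
    simp [ha, hb])
  obtain ⟨w, hw⟩ := Fintype.exists_ne_of_one_lt_card (by omega : 1 < Fintype.card V) v
  have := h1 w v
  simp [hw] at this

theorem nb_unique (T : Finset (Sym2 V)) (v w : V) (hv : (nb T v).card = 1) (hw : s(v, w) ∈ T)
    (a : V) (ha : s(v, a) ∈ T) : a = w := by
  obtain ⟨c, hc⟩ := Finset.card_eq_one.1 hv
  have h1 : a ∈ nb T v := (mem_nb _ _ _).2 ha
  have h2 : w ∈ nb T v := (mem_nb _ _ _).2 hw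
  rw [hc, Finset.mem_singleton] at h1 h2
  rw [h1, h2]

theorem leaf_not_adj (T : Finset (Sym2 V)) (hsp : Sp T) (hV : 3 ≤ Fintype.card V) (v w : V)
    (hv : (nb T v).card = 1) (hw : (nb T w).card = 1) : s(v, w) ∉ T := by
  intro hvw
  have hwv : s(w, v) ∈ T := by rw [Sym2.eq_swap]; exact hvw
  have h3 := hsp (fun u => if u = v ∨ u = w then 1 else 0) (by
    intro a b hab
    have hba : s(b, a) ∈ T := by rw [Sym2.eq_swap]; exact hab
    have key : ∀ a b, s(a, b) ∈ T → (a = v ∨ a = w) → (b = v ∨ b = w) := by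
      intro a b hab h
      rcases h with rfl | rfl
      · exact Or.inr (nb_unique T a w hv hvw b hab)
      · exact Or.inl (nb_unique T a v hw hwv b hab)
    by_cases h : a = v ∨ a = w
    · have h' := key a b hab h
      simp only [h, h', if_true]
    · have h' : ¬ (b = v ∨ b = w) := fun h' => h (key b a hba h')
      simp only [h, h', if_false])
  have h4 : ∃ u, u ≠ v ∧ u ≠ w := by
    by_contra hne
    push Not at hne
    have : (univ : Finset V) ⊆ {v, w} := by
      intro u _
      by_cases hu : u = v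
      · simp [hu]
      · simp [hne u hu]
    have := Finset.card_le_card this
    rw [Finset.card_univ] at this
    have h5 := Finset.card_insert_le v ({w} : Finset V)
    rw [Finset.card_singleton] at h5
    omega
  obtain ⟨u, h5, h6⟩ := h4
  have := h3 u v
  simp [h5, h6] at this

/-- hypotheses on the ambient graph -/
structure Amb (E : Finset (Sym2 V)) : Prop where
  nd : ∀ e ∈ E, ¬ e.IsDiag
  deg : ∀ v, (nb E v).card = 1 ∨ (nb E v).card = 3
  big : 3 ≤ Fintype.card V

theorem codeg_le {E T : Finset (Sym2 V)} (hA : Amb E) (hT : T ⊆ E) (hsp : Sp T) (v : V) :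
    (nb (E \ T) v).card ≤ 2 := by
  have h1 := nb_split hT v
  have h2 := nb_pos T hsp (by have := hA.big; omega) v
  have h3 := hA.deg v
  omega

theorem leaf_facts {E T : Finset (Sym2 V)} (hA : Amb E) (hT : T ⊆ E) (hsp : Sp T) {v : V}
    (hv : v ∈ Lf E T) : (nb E v).card = 3 ∧ (nb T v).card = 1 := by
  have h1 := nb_split hT v
  have h2 := nb_pos T hsp (by have := hA.big; omega) v
  have h3 := hA.deg v
  have h4 := (mem_Lf _ _ _).1 hv
  omega

/-- number of neighbours in `B` -/
def dg (E : Finset (Sym2 V)) (B : Finset V) (v : V) : ℕ := (B.filter fun w => s(v, w) ∈ E).card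

/-- every vertex of `C` has exactly two neighbours in `C` -/
def Clo (E : Finset (Sym2 V)) (C : Finset V) : Prop := ∀ v ∈ C, dg E C v = 2

/-- the goodness condition on a spanning tree, in terms of cotree degrees -/
def Good (E T : Finset (Sym2 V)) : Prop :=
  (∀ v, (nb (E \ T) v).card ≤ 2) ∧
    ∀ v w, s(v, w) ∈ E \ T → (nb (E \ T) v).card = 1 → (nb (E \ T) w).card = 1

theorem good_iff {E T : Finset (Sym2 V)} (hA : Amb E) (hT : T ⊆ E) (hsp : Sp T) :
    Good E T ↔ Clo E (Lf E T) := by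
  have hsub : ∀ v ∈ Lf E T, ((Lf E T).filter fun w => s(v, w) ∈ E) ⊆ nb (E \ T) v := by
    intro v hv w hw
    obtain ⟨h1, h2⟩ := Finset.mem_filter.1 hw
    rw [mem_nb, Finset.mem_sdiff]
    exact ⟨h2, leaf_not_adj T hsp hA.big v w (leaf_facts hA hT hsp hv).2 (leaf_facts hA hT hsp h1).2⟩
  constructor
  · rintro ⟨-, hg⟩ v hv
    have : ((Lf E T).filter fun w => s(v, w) ∈ E) = nb (E \ T) v := by
      apply Finset.Subset.antisymm (hsub v hv)
      intro w hw
      rw [mem_nb] at hw
      rw [Finset.mem_filter]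
      refine ⟨?_, (Finset.mem_sdiff.1 hw).1⟩
      rw [mem_Lf]
      have h1 : s(w, v) ∈ E \ T := by rw [Sym2.eq_swap]; exact hw
      have h2 : 0 < (nb (E \ T) w).card := Finset.card_pos.2 ⟨v, (mem_nb _ _ _).2 h1⟩
      have h3 := codeg_le hA hT hsp w
      have h4 : (nb (E \ T) w).card ≠ 1 := by
        intro h
        have := hg w v h1 h
        have h5 := (mem_Lf _ _ _).1 hv
        omega
      omega
    unfold dg
    rw [this]
    exact (mem_Lf _ _ _).1 hv
  · intro hc
    refine ⟨codeg_le hA hT hsp, fun v w hvw h1 => ?_⟩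
    have h2 : s(w, v) ∈ E \ T := by rw [Sym2.eq_swap]; exact hvw
    have h3 : 0 < (nb (E \ T) w).card := Finset.card_pos.2 ⟨v, (mem_nb _ _ _).2 h2⟩
    have h4 := codeg_le hA hT hsp w
    by_contra hne
    have hw : w ∈ Lf E T := by rw [mem_Lf]; omega
    have h5 := hc w hw
    unfold dg at h5
    have h6 : ((Lf E T).filter fun u => s(w, u) ∈ E) = nb (E \ T) w :=
      Finset.eq_of_subset_of_card_le (hsub w hw) (by rw [h5]; exact ((mem_Lf _ _ _).1 hw).le)
    have h7 : v ∈ (Lf E T).filter fun u => s(w, u) ∈ E := by rw [h6, mem_nb]; exact h2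
    have h8 := (mem_Lf _ _ _).1 (Finset.mem_filter.1 h7).1
    omega

open scoped Classical in
/-- number of closed subsets -/
noncomputable def kap (E : Finset (Sym2 V)) (B : Finset V) : ℕ :=
  (B.powerset.filter fun C => Clo E C).card

omit [Fintype V] in
theorem kap_one {E : Finset (Sym2 V)} {B : Finset V} (h : ∀ v ∈ B, dg E B v = 0) :
    kap E B = 1 := by
  classical
  unfold kap
  rw [Finset.card_eq_one]
  refine ⟨∅, ?_⟩
  ext C
  rw [Finset.mem_filter, Finset.mem_powerset, Finset.mem_singleton]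
  constructor
  · rintro ⟨hCB, hC⟩
    by_contra hne
    obtain ⟨v, hv⟩ := Finset.nonempty_iff_ne_empty.2 hne
    have h1 := hC v hv
    have h2 := h v (hCB hv)
    unfold dg at h1 h2
    have h3 : (C.filter fun w => s(v, w) ∈ E) ⊆ B.filter fun w => s(v, w) ∈ E :=
      Finset.filter_subset_filter _ hCB
    have := Finset.card_le_card h3
    omega
  · rintro rfl
    exact ⟨Finset.empty_subset _, fun v hv => absurd hv (Finset.notMem_empty _)⟩

omit [Fintype V] in
theorem kap_even {E : Finset (Sym2 V)} {B : Finset V} (h : ∀ v ∈ B, dg E B v = 0 ∨ dg E B v = 2)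
    (hex : ∃ v ∈ B, dg E B v = 2) : (kap E B : ZMod 2) = 0 := by
  classical
  -- the vertices of degree two
  let Z : Finset V := B.filter fun v => dg E B v = 2
  have hZ : ∀ v, v ∈ Z ↔ v ∈ B ∧ dg E B v = 2 := fun v => by simp [Z]
  -- a closed set lies in Z and contains all B-neighbours of its elements
  have hC1 : ∀ C, C ⊆ B → Clo E C → ∀ v ∈ C, v ∈ Z ∧ ∀ w ∈ B, s(v, w) ∈ E → w ∈ C := by
    intro C hCB hC v hv
    have h1 := hC v hv
    have h2 := h v (hCB hv)
    have h3 : (C.filter fun w => s(v, w) ∈ E) ⊆ B.filter fun w => s(v, w) ∈ E :=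
      Finset.filter_subset_filter _ hCB
    have h4 := Finset.card_le_card h3
    have h5 : dg E B v = 2 := by
      rcases h2 with h2 | h2
      · unfold dg at h1 h2; omega
      · exact h2
    refine ⟨(hZ v).2 ⟨hCB hv, h5⟩, fun w hw hvw => ?_⟩
    have h6 : (C.filter fun w => s(v, w) ∈ E) = B.filter fun w => s(v, w) ∈ E := by
      refine Finset.eq_of_subset_of_card_le h3 ?_
      unfold dg at h1 h5
      omega
    have h7 : w ∈ B.filter fun w => s(v, w) ∈ E := Finset.mem_filter.2 ⟨hw, hvw⟩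
    rw [← h6] at h7
    exact (Finset.mem_filter.1 h7).1
  have hZ2 : ∀ v ∈ Z, ∀ w ∈ B, s(v, w) ∈ E → w ∈ Z := by
    intro v hv w hw hvw
    rw [hZ]
    refine ⟨hw, ?_⟩
    rcases h w hw with h1 | h1
    · exfalso
      unfold dg at h1
      rw [Finset.card_eq_zero] at h1
      have : v ∈ B.filter fun u => s(w, u) ∈ E :=
        Finset.mem_filter.2 ⟨((hZ v).1 hv).1, by rw [Sym2.eq_swap]; exact hvw⟩
      rw [h1] at this
      exact Finset.notMem_empty _ this
    · exact h1
  have hcard : (kap E B : ZMod 2) = ∑ C ∈ B.powerset.filter (fun C => Clo E C), (1 : ZMod 2) := by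
    unfold kap
    rw [Finset.sum_const, nsmul_eq_mul, mul_one]
  rw [hcard]
  refine Finset.sum_involution (fun C _ => Z \ C) ?_ ?_ ?_ ?_
  · intro C _
    decide
  · intro C hC _ heq
    obtain ⟨v, hv, hv2⟩ := hex
    have hvZ : v ∈ Z := (hZ v).2 ⟨hv, hv2⟩
    by_cases hvC : v ∈ C
    · have : v ∈ Z \ C := by rw [heq]; exact hvC
      exact (Finset.mem_sdiff.1 this).2 hvC
    · have : v ∈ Z \ C := Finset.mem_sdiff.2 ⟨hvZ, hvC⟩
      rw [heq] at this
      exact hvC this
  · intro C hC
    obtain ⟨hCB, hC'⟩ := Finset.mem_filter.1 hC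
    rw [Finset.mem_powerset] at hCB
    rw [Finset.mem_filter, Finset.mem_powerset]
    refine ⟨fun v hv => ((hZ v).1 (Finset.mem_sdiff.1 hv).1).1, fun v hv => ?_⟩
    obtain ⟨hvZ, hvC⟩ := Finset.mem_sdiff.1 hv
    have h2 := ((hZ v).1 hvZ).2
    have h3 : ((Z \ C).filter fun w => s(v, w) ∈ E) = B.filter fun w => s(v, w) ∈ E := by
      ext w
      rw [Finset.mem_filter, Finset.mem_filter, Finset.mem_sdiff]
      constructor
      · rintro ⟨⟨h4, -⟩, h5⟩
        exact ⟨((hZ w).1 h4).1, h5⟩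
      · rintro ⟨h4, h5⟩
        refine ⟨⟨hZ2 v hvZ w h4 h5, fun h6 => hvC ?_⟩, h5⟩
        exact (hC1 C hCB hC' w h6).2 v ((hZ v).1 hvZ).1 (by rw [Sym2.eq_swap]; exact h5)
    unfold dg at h2 ⊢
    rw [h3]; exact h2
  · intro C hC
    obtain ⟨hCB, hC'⟩ := Finset.mem_filter.1 hC
    rw [Finset.mem_powerset] at hCB
    ext v
    rw [Finset.mem_sdiff, Finset.mem_sdiff]
    constructor
    · rintro ⟨h1, h2⟩
      by_contra h3
      exact h2 ⟨h1, h3⟩
    · intro h1
      exact ⟨(hC1 C hCB hC' v h1).1, fun h2 => h2.2 h1⟩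

omit [Fintype V] in
open scoped Classical in
theorem sum_kap (E : Finset (Sym2 V)) (L : Finset V) :
    (∑ B ∈ L.powerset, (kap E B : ZMod 2)) = if Clo E L then 1 else 0 := by
  have h1 : ∀ B ∈ L.powerset, (kap E B : ZMod 2)
      = ∑ C ∈ B.powerset, (if Clo E C then (1 : ZMod 2) else 0) := by
    intro B _
    unfold kap
    rw [← Finset.sum_filter, Finset.sum_const, nsmul_eq_mul, mul_one]
  rw [Finset.sum_congr rfl h1]
  have h2 : (∑ B ∈ L.powerset, ∑ C ∈ B.powerset, (if Clo E C then (1 : ZMod 2) else 0))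
      = ∑ C ∈ L.powerset, ∑ B ∈ Finset.Icc C L, (if Clo E C then (1 : ZMod 2) else 0) := by
    refine Finset.sum_comm' ?_
    intro B C
    simp only [Finset.mem_powerset, Finset.mem_Icc]
    constructor
    · rintro ⟨a, b⟩; exact ⟨⟨b, a⟩, b.trans a⟩
    · rintro ⟨⟨a, b⟩, c⟩; exact ⟨b, a⟩
  rw [h2]
  have h3 : ∀ C ∈ L.powerset, (∑ B ∈ Finset.Icc C L, (if Clo E C then (1 : ZMod 2) else 0))
      = if C = L then (if Clo E L then 1 else 0) else 0 := by
    intro C hC
    rw [Finset.mem_powerset] at hC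
    rw [Finset.sum_const, Finset.card_Icc_finset hC]
    by_cases h : C = L
    · subst h
      simp
    · rw [if_neg h]
      have hlt : C.card < L.card := Finset.card_lt_card (Finset.ssubset_iff_subset_ne.2 ⟨hC, h⟩)
      obtain ⟨k, hk⟩ : ∃ k, L.card - C.card = k + 1 := ⟨L.card - C.card - 1, by omega⟩
      rw [hk, pow_succ, mul_comm, mul_nsmul]
      have : (2 : ℕ) • (if Clo E C then (1 : ZMod 2) else 0) = 0 := by
        rw [two_nsmul]; exact CharTwo.add_self_eq_zero _
      rw [this, nsmul_zero]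
  rw [Finset.sum_congr rfl h3, Finset.sum_ite_eq']
  simp

end Pool.Agent.Helper65.DC
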